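import Mathlib

/-!
# Cocycles with values in `k[X]` for translations by a finite additive group

All additive cocycles are coboundaries (`exists_coboundary`), and a central extension of a finite
subgroup of `(k, +)` by `ZMod p` is realised by a cocycle with values in `k[X]`
(`exists_cocycle`).
-/

set_option autoImplicit false

open Polynomial

namespace Pool.Agent.Helper50.AS

variable {k : Type} [Field k]

/-- translation `Q(X) ↦ Q(X + a)` -/
noncomputable def tr (a : k) : k[X] →+* k[X] := compRingHom (X + C a)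

lemma tr_apply (a : k) (Q : k[X]) : tr a Q = Q.comp (X + C a) := rfl

lemma tr_tr (a b : k) (Q : k[X]) : tr a (tr b Q) = tr (a + b) Q := by
  simp only [tr_apply, comp_assoc]
  congr 1
  simp only [add_comp, X_comp, C_comp, C_add]
  ring

lemma tr_zero (Q : k[X]) : tr 0 Q = Q := by simp [tr_apply]

lemma tr_C (a c : k) : tr a (C c) = C c := by simp [tr_apply]

lemma tr_map (F : k →+* k) (a : k) (Q : k[X]) : (tr a Q).map F = tr (F a) (Q.map F) := by
  simp [tr_apply, map_comp]

/-- a partition of unity for the translations by `V` -/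
lemma exists_theta (V : AddSubgroup k) [Fintype V] :
    ∃ θ : k[X], ∑ v : V, tr (v : k) θ = 1 := by
  classical
  -- basis polynomial at `0`
  set θ : k[X] := ∏ w ∈ (Finset.univ : Finset V).erase 0, Lagrange.basisDivisor (0 : k) (w : k)
    with hθ
  have key : ∀ v : V, tr (-(v : k)) θ = Lagrange.basis (Finset.univ : Finset V) (fun v => (v : k)) v := by
    intro v
    rw [hθ, map_prod, Lagrange.basis]
    refine Finset.prod_bij' (fun w _ => w + v) (fun w _ => w - v) ?_ ?_ ?_ ?_ ?_
    · intro w hw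
      simp only [Finset.mem_erase, Finset.mem_univ, and_true, ne_eq] at hw ⊢
      intro h
      apply hw
      have : w + v - v = v - v := by rw [h]
      simpa using this
    · intro w hw
      simp only [Finset.mem_erase, Finset.mem_univ, and_true, ne_eq] at hw ⊢
      intro h
      exact hw (sub_eq_zero.1 h)
    · intro w _; simp
    · intro w _; simp
    · intro w _
      simp only [Lagrange.basisDivisor, tr_apply, mul_comp, C_comp, sub_comp, X_comp,
        AddSubgroup.coe_add, zero_sub]
      have e1 : (v : k) - (w + v) = -w := by ring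
      rw [e1]
      congr 1
      simp only [C_add, C_neg]
      ring
  refine ⟨θ, ?_⟩
  have hsum : ∑ v : V, Lagrange.basis (Finset.univ : Finset V) (fun v => (v : k)) v = 1 :=
    Lagrange.sum_basis (fun a _ b _ h => Subtype.ext h) ⟨0, Finset.mem_univ _⟩
  rw [← hsum]
  refine Fintype.sum_equiv (Equiv.neg V) _ _ ?_
  intro v
  rw [← key]
  simp

/-- additive cocycles for translations are coboundaries -/
lemma exists_coboundary_aux (V : AddSubgroup k) [Fintype V] (A : V → k[X])
    (hA : ∀ u v, A (u + v) = A u + tr (u : k) (A v)) :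
    ∃ Λ : k[X], ∀ u : V, A u = tr (u : k) Λ - Λ := by
  obtain ⟨θ, hθ⟩ := exists_theta V
  refine ⟨-∑ v : V, A v * tr (v : k) θ, ?_⟩
  intro u
  have h1 : ∀ v : V, tr (u : k) (A v) = A (u + v) - A u := fun v => by rw [hA]; ring
  have h2 : tr (u : k) (∑ v : V, A v * tr (v : k) θ)
      = ∑ v : V, (A v - A u) * tr (v : k) θ := by
    rw [map_sum]
    refine Fintype.sum_equiv (Equiv.addLeft u) _ _ ?_
    intro v
    rw [map_mul, h1, tr_tr]
    simp
  rw [map_neg, h2]
  simp only [sub_mul, Finset.sum_sub_distrib, ← Finset.mul_sum, hθ, mul_one]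
  ring

variable {G : Type} [Group G]

/-- the additive subgroup of values of `ι` -/
def range' (ι : G → k) (hι : ∀ g h, ι (g * h) = ι g + ι h) : AddSubgroup k where
  carrier := Set.range ι
  zero_mem' := ⟨1, by simpa using hι 1 1⟩
  add_mem' := by
    rintro _ _ ⟨g, rfl⟩ ⟨h, rfl⟩
    exact ⟨g * h, hι g h⟩
  neg_mem' := by
    rintro _ ⟨g, rfl⟩
    refine ⟨g⁻¹, ?_⟩
    have h1 : ι 1 = 0 := by simpa using hι 1 1
    have h2 := hι g g⁻¹
    rw [mul_inv_cancel, h1] at h2
    exact (neg_eq_of_add_eq_zero_right h2.symm).symm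

lemma iota_one (ι : G → k) (hι : ∀ g h, ι (g * h) = ι g + ι h) : ι 1 = 0 := by
  simpa using hι 1 1

lemma iota_inv (ι : G → k) (hι : ∀ g h, ι (g * h) = ι g + ι h) (g : G) : ι g⁻¹ = - ι g := by
  have h2 := hι g g⁻¹
  rw [mul_inv_cancel, iota_one ι hι] at h2
  exact (neg_eq_of_add_eq_zero_right h2.symm).symm

instance (ι : G → k) (hι : ∀ g h, ι (g * h) = ι g + ι h) [Finite G] : Finite (range' ι hι) :=
  (Set.finite_range ι).to_subtype

/-- additive cocycles on `G` which vanish on the kernel of `ι` are coboundaries -/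
lemma exists_coboundary [Finite G] (ι : G → k) (hι : ∀ g h, ι (g * h) = ι g + ι h)
    (A : G → k[X]) (hA : ∀ g h, A (g * h) = A g + tr (ι g) (A h))
    (hA0 : ∀ g, ι g = 0 → A g = 0) :
    ∃ Λ : k[X], ∀ g : G, A g = tr (ι g) Λ - Λ := by
  classical
  have : Fintype (range' ι hι) := Fintype.ofFinite _
  have hdep : ∀ g h, ι g = ι h → A g = A h := by
    intro g h hgh
    have h1 : h = g * (g⁻¹ * h) := by group
    have h2 : ι (g⁻¹ * h) = 0 := by rw [hι, iota_inv ι hι, hgh]; ring
    rw [h1, hA, hA0 _ h2, map_zero, add_zero]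
  choose s hs using fun v : range' ι hι => v.2
  obtain ⟨Λ, hΛ⟩ := exists_coboundary_aux (range' ι hι) (fun v => A (s v)) (by
    intro u v
    have h1 : A (s (u + v)) = A (s u * s v) := by
      apply hdep
      rw [hs, hι, hs, hs]
      rfl
    rw [h1, hA, hs])
  refine ⟨Λ, fun g => ?_⟩
  have := hΛ ⟨ι g, g, rfl⟩
  rw [← this]
  exact hdep _ _ (hs ⟨ι g, g, rfl⟩).symm

/-- a central extension of a finite group of translations by `ZMod p` is realised by polynomials -/
lemma exists_cocycle [Finite G] {R : Type} [AddCommGroup R] (c : R →+ k)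
    (ι : G → k) (hι : ∀ g h, ι (g * h) = ι g + ι h)
    (ζ : G → R) (hζ : ∀ x y, ι x = 0 → ι y = 0 → ζ (x * y) = ζ x + ζ y)
    (hζc : ∀ g z, ι z = 0 → ζ (g⁻¹ * z * g) = ζ z) :
    ∃ P : G → k[X], (∀ g h, P (g * h) = P g + tr (ι g) (P h)) ∧
      ∀ z, ι z = 0 → P z = C (c (ζ z)) := by
  classical
  have : Fintype (range' ι hι) := Fintype.ofFinite _
  obtain ⟨θ, hθ⟩ := exists_theta (range' ι hι)
  choose s hs using fun v : range' ι hι => v.2
  set r : G → range' ι hι := fun g => ⟨ι g, g, rfl⟩ with hr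
  have hrmul : ∀ g h, r (g * h) = r g + r h := fun g h => Subtype.ext (hι g h)
  set κ : G → range' ι hι → R := fun g v => ζ ((s v)⁻¹ * g * s (v - r g)) with hκ
  have h0 : ∀ g v, ι ((s v)⁻¹ * g * s (v - r g)) = 0 := by
    intro g v
    rw [hι, hι, iota_inv ι hι, hs, hs]
    simp only [AddSubgroup.coe_sub, hr]
    ring
  have hκmul : ∀ g h v, κ (g * h) v = κ g v + κ h (v - r g) := by
    intro g h v
    simp only [hκ]
    rw [← hζ _ _ (h0 g v) (h0 h (v - r g))]
    congr 1
    rw [hrmul, sub_add_eq_sub_sub]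
    group
  refine ⟨fun g => ∑ v, C (c (κ g v)) * tr (v : k) θ, ?_, ?_⟩
  · intro g h
    simp only [hκmul, map_add, add_mul, Finset.sum_add_distrib]
    congr 1
    rw [map_sum]
    refine Fintype.sum_equiv (Equiv.subRight (r g)) _ _ ?_
    intro v
    rw [map_mul, tr_C, tr_tr]
    simp [hr]
  · intro z hz
    have hrz : r z = 0 := Subtype.ext hz
    have hk : ∀ v, κ z v = ζ z := by
      intro v
      simp only [hκ, hrz, sub_zero]
      exact hζc _ _ hz
    simp only [hk, ← Finset.mul_sum, hθ, mul_one]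

end Pool.Agent.Helper50.AS
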