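import Mathlib
import Pool.Agent.Helper50.AS.Cocycle

/-!
# Descent of the Artin-Schreier datum to the prime field
-/

set_option autoImplicit false

open Polynomial

namespace Pool.Agent.Helper50.AS

variable {k : Type} [Field k]

section sigma

variable (V : AddSubgroup k) [Fintype V]

/-- the additive polynomial `∏_{v ∈ V} (X - v)` -/
noncomputable def sig : k[X] := ∏ v : V, (X - C (v : k))

lemma sig_monic : (sig V).Monic := monic_prod_of_monic _ _ fun _ _ => monic_X_sub_C _

lemma sig_natDegree : (sig V).natDegree = Fintype.card V := by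
  rw [sig, natDegree_prod_of_monic _ _ (fun v _ => monic_X_sub_C _)]
  simp

lemma tr_sig (u : V) : tr (u : k) (sig V) = sig V := by
  rw [sig, map_prod]
  refine Fintype.prod_equiv (Equiv.subRight u) _ _ ?_
  intro v
  simp only [tr_apply, sub_comp, X_comp, C_comp, Equiv.subRight_apply, AddSubgroup.coe_sub, C_sub]
  ring

lemma sig_eval_mem (v : V) : (sig V).eval (v : k) = 0 := by
  rw [sig, eval_prod]
  exact Finset.prod_eq_zero (Finset.mem_univ v) (by simp)

lemma mem_of_sig_eval {b : k} (h : (sig V).eval b = 0) : b ∈ V := by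
  rw [sig, eval_prod, Finset.prod_eq_zero_iff] at h
  obtain ⟨v, -, hv⟩ := h
  simp only [eval_sub, eval_X, eval_C] at hv
  rw [sub_eq_zero.1 hv]
  exact v.2

lemma tr_natDegree (b : k) (Q : k[X]) : (tr b Q).natDegree = Q.natDegree := by
  rw [tr_apply, natDegree_comp]
  simp

lemma tr_monic (b : k) {Q : k[X]} (h : Q.Monic) : (tr b Q).Monic := by
  rw [tr_apply]
  exact h.comp_X_add_C b

lemma tr_eval (b x : k) (Q : k[X]) : (tr b Q).eval x = Q.eval (x + b) := by
  simp [tr_apply]

lemma sig_card_pos : 0 < Fintype.card V := Fintype.card_pos_iff.2 ⟨0⟩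

lemma sig_add (b : k) : tr b (sig V) = sig V + C ((sig V).eval b) := by
  classical
  have hq := sig_card_pos V
  have h1 : (tr b (sig V) - sig V).natDegree < Fintype.card V ∨ tr b (sig V) - sig V = 0 := by
    by_cases h0 : tr b (sig V) - sig V = 0
    · right; exact h0
    left
    have h2 : (tr b (sig V) - sig V).degree < (tr b (sig V)).degree := by
      apply degree_sub_lt_left
      · rw [degree_eq_natDegree (tr_monic b (sig_monic V)).ne_zero,
          degree_eq_natDegree (sig_monic V).ne_zero, tr_natDegree]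
      · exact (tr_monic b (sig_monic V)).ne_zero
      · rw [(tr_monic b (sig_monic V)).leadingCoeff, (sig_monic V).leadingCoeff]
    rw [degree_eq_natDegree h0, degree_eq_natDegree (tr_monic b (sig_monic V)).ne_zero,
      tr_natDegree, sig_natDegree] at h2
    exact_mod_cast h2
  have h3 : (tr b (sig V) - sig V - C ((sig V).eval b)).natDegree < Fintype.card V := by
    rcases h1 with h1 | h1
    · exact lt_of_le_of_lt (natDegree_sub_le _ _) (max_lt h1 (by simpa using hq))
    · rw [h1]; simpa using hq
  have h4 : tr b (sig V) - sig V - C ((sig V).eval b) = 0 := by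
    apply eq_zero_of_natDegree_lt_card_of_eval_eq_zero _
      (f := fun v : V => (v : k)) Subtype.coe_injective _ h3
    intro v
    rw [eval_sub, eval_sub, eval_C, tr_eval, sig_eval_mem, add_comm, ← tr_eval, tr_sig]
    ring
  linear_combination h4

lemma tr_derivative (b : k) (Q : k[X]) : derivative (tr b Q) = tr b (derivative Q) := by
  rw [tr_apply, tr_apply, derivative_comp]
  simp

lemma sig_derivative [Infinite k] : ∃ c : k, c ≠ 0 ∧ derivative (sig V) = C c := by
  classical
  refine ⟨(derivative (sig V)).eval 0, ?_, ?_⟩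
  · have hsep : (sig V).Separable := by
      rw [sig, separable_prod_X_sub_C_iff]
      exact Subtype.coe_injective
    intro h0
    have h1 := hsep
    rw [separable_def] at h1
    obtain ⟨a, b, hab⟩ := h1
    have h2 := congrArg (eval (0 : k)) hab
    have h3 : (sig V).eval 0 = 0 := sig_eval_mem V 0
    simp [h3, h0] at h2
  · apply Polynomial.funext
    intro b
    rw [eval_C]
    have h1 := congrArg derivative (sig_add V b)
    rw [tr_derivative, derivative_add, derivative_C, add_zero] at h1
    have h2 := congrArg (eval (0 : k)) h1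
    rwa [tr_eval, zero_add] at h2

lemma sig_map (F : k →+* k) (hF : ∀ v ∈ V, F v ∈ V) : (sig V).map F = sig V := by
  classical
  have hinj : Function.Injective (fun v : V => (⟨F v, hF v v.2⟩ : V)) := by
    intro a b h
    exact Subtype.ext (F.injective (congrArg Subtype.val h))
  have hbij : Function.Bijective (fun v : V => (⟨F v, hF v v.2⟩ : V)) :=
    Finite.injective_iff_bijective.1 hinj
  rw [sig, Polynomial.map_prod]
  refine Fintype.prod_bijective _ hbij _ _ ?_
  intro v
  simp

end sigma

section lang

variable (p : ℕ) [Fact p.Prime] [CharP k p]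

lemma exists_AS_root [IsAlgClosed k] (c : k) : ∃ x : k, x ^ p - x = c := by
  have hp : 1 < p := (Fact.out : p.Prime).one_lt
  have hdeg : (X ^ p - X - C c : k[X]).degree ≠ 0 := by
    have : (X ^ p - X - C c : k[X]).natDegree = p := by
      have h1 : (X + C c : k[X]).natDegree < (X ^ p : k[X]).natDegree := by
        rw [natDegree_X_add_C, natDegree_X_pow]; exact hp
      rw [sub_sub, natDegree_sub_eq_left_of_natDegree_lt h1, natDegree_X_pow]
    intro h
    have h2 : (X ^ p - X - C c : k[X]).natDegree = 0 := by
      rw [natDegree, h]; rfl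
    omega
  obtain ⟨x, hx⟩ := IsAlgClosed.exists_root _ hdeg
  refine ⟨x, ?_⟩
  simp only [IsRoot, eval_sub, eval_pow, eval_X, eval_C] at hx
  linear_combination hx

lemma lang_poly [IsAlgClosed k] (L : k[X]) : ∃ M : k[X], M.map (frobenius k p) - M = L := by
  induction L using Polynomial.induction_on' with
  | add a b ha hb =>
    obtain ⟨M, hM⟩ := ha
    obtain ⟨M', hM'⟩ := hb
    exact ⟨M + M', by rw [Polynomial.map_add, ← hM, ← hM']; ring⟩
  | monomial n a =>
    obtain ⟨x, hx⟩ := exists_AS_root p a
    refine ⟨monomial n x, ?_⟩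
    rw [map_monomial, ← monomial_sub, frobenius_def, hx]

lemma invariant_solve [IsAlgClosed k] (V : AddSubgroup k) [Fintype V]
    (hF : ∀ v ∈ V, frobenius k p v ∈ V) :
    ∀ (n : ℕ) (E : k[X]), E.natDegree < n → (∀ v ∈ V, tr v E = E) →
      ∃ g : k[X], (∀ v ∈ V, tr v g = g) ∧ g.map (frobenius k p) - g = E := by
  intro n
  induction n with
  | zero => intro E hE; exact absurd hE (Nat.not_lt_zero _)
  | succ n ih =>
    intro E hE hinv
    obtain ⟨c, hc⟩ := exists_AS_root p (E.eval 0)
    have hroot : ∀ v : V, (E - C (E.eval 0)).eval (v : k) = 0 := by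
      intro v
      have h1 := congrArg (eval (0 : k)) (hinv v v.2)
      rw [tr_eval, zero_add] at h1
      simp [h1]
    have hdvd : sig V ∣ E - C (E.eval 0) := by
      rw [sig]
      apply Finset.prod_dvd_of_coprime
      · intro a _ b _ hab
        exact pairwise_coprime_X_sub_C (s := fun v : V => (v : k)) Subtype.coe_injective hab
      · intro v _
        exact dvd_iff_isRoot.2 (hroot v)
    obtain ⟨E1, hE1⟩ := hdvd
    have hE1inv : ∀ v ∈ V, tr v E1 = E1 := by
      intro v hv
      have h1 := congrArg (tr v) hE1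
      have h2 : tr v (sig V) = sig V := tr_sig V ⟨v, hv⟩
      rw [map_sub, hinv v hv, tr_C, map_mul, h2, hE1] at h1
      exact (mul_left_cancel₀ (sig_monic V).ne_zero h1).symm
    by_cases h0 : E1 = 0
    · refine ⟨C c, fun v _ => tr_C _ _, ?_⟩
      rw [h0, mul_zero, sub_eq_zero] at hE1
      rw [map_C, ← C_sub, frobenius_def, hc, ← hE1]
    · have hdeg : E1.natDegree < n := by
        have h1 : (E - C (E.eval 0)).natDegree = (sig V).natDegree + E1.natDegree := by
          rw [hE1, natDegree_mul (sig_monic V).ne_zero h0]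
        rw [natDegree_sub_C, sig_natDegree] at h1
        have := sig_card_pos V
        omega
      obtain ⟨g, hg, hg'⟩ := ih E1 hdeg hE1inv
      refine ⟨C c + sig V * g, ?_, ?_⟩
      · intro v hv
        have h2 : tr v (sig V) = sig V := tr_sig V ⟨v, hv⟩
        rw [map_add, map_mul, tr_C, h2, hg v hv]
      · rw [Polynomial.map_add, Polynomial.map_mul, map_C, sig_map V _ hF, frobenius_def]
        have h3 : C (c ^ p) = C c + C (E.eval 0) := by rw [← C_add, ← hc]; congr 1; ring
        rw [h3]
        linear_combination (sig V) * hg' - hE1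

lemma mem_range_of_pow_eq (a : k) (ha : a ^ p = a) :
    a ∈ Set.range (ZMod.castHom (dvd_refl p) k) := by
  classical
  have hp : 1 < p := (Fact.out : p.Prime).one_lt
  by_contra hcon
  set c : ZMod p →+* k := ZMod.castHom (dvd_refl p) k with hc
  have hinj : Function.Injective c := c.injective
  -- too many roots
  set Q : k[X] := X ^ p - X with hQ
  have hQdeg : Q.natDegree = p := by
    rw [hQ, natDegree_sub_eq_left_of_natDegree_lt, natDegree_X_pow]
    rw [natDegree_X, natDegree_X_pow]; exact hp
  set f : Option (ZMod p) → k := fun o => o.elim a c with hf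
  have hfinj : Function.Injective f := by
    intro x y hxy
    cases x with
    | none =>
      cases y with
      | none => rfl
      | some y => exact absurd ⟨y, hxy.symm⟩ hcon
    | some x =>
      cases y with
      | none => exact absurd ⟨x, hxy⟩ hcon
      | some y => exact congrArg some (hinj hxy)
  have h0 : Q = 0 := by
    apply eq_zero_of_natDegree_lt_card_of_eval_eq_zero Q (f := f) hfinj
    · intro o
      cases o with
      | none => simp [hf, hQ, ha]
      | some x =>
        simp only [hf, hQ, Option.elim, eval_sub, eval_pow, eval_X]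
        rw [← map_pow, ZMod.pow_card, sub_self]
    · rw [hQdeg, Fintype.card_option, ZMod.card]; omega
  rw [h0, natDegree_zero] at hQdeg
  omega

lemma exists_map_of_fixed (Q : k[X]) (hQ : Q.map (frobenius k p) = Q) :
    ∃ Q₀ : (ZMod p)[X], Q₀.map (ZMod.castHom (dvd_refl p) k) = Q := by
  have : Q ∈ lifts (ZMod.castHom (dvd_refl p) k) := by
    rw [lifts_iff_coeff_lifts]
    intro n
    apply mem_range_of_pow_eq p
    have := congrArg (fun q => q.coeff n) hQ
    simpa [frobenius_def] using this
  rw [mem_lifts] at this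
  exact this

end lang

section descent

variable (p : ℕ) [Fact p.Prime] [CharP k p] {G : Type} [Group G]

/-- the operator `Q ↦ Q^p - Q` is additive -/
lemma wp_add (A B : k[X]) : (A + B) ^ p - (A + B) = (A ^ p - A) + (B ^ p - B) := by
  rw [add_pow_char]; ring

lemma wp_sub (A B : k[X]) : (A - B) ^ p - (A - B) = (A ^ p - A) - (B ^ p - B) := by
  rw [sub_pow_char]; ring

/-- From a cocycle `P` and a lift of Frobenius to `G`, produce a datum over the prime field. -/
theorem exists_descent [IsAlgClosed k] [Finite G] (ι : G → k)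
    (hι : ∀ g h, ι (g * h) = ι g + ι h) (φ : G ≃* G) (hφ : ∀ g, ι (φ g) = (ι g) ^ p)
    (hφz : ∀ z, ι z = 0 → φ z = z) (P : G → k[X])
    (hP : ∀ g h, P (g * h) = P g + tr (ι g) (P h))
    (hPz : ∀ z, ι z = 0 → ∃ a : ZMod p, P z = C (ZMod.castHom (dvd_refl p) k a)) :
    ∃ (f₀ : (ZMod p)[X]) (P' : G → k[X]),
      (∀ g h, P' (g * h) = P' g + tr (ι g) (P' h)) ∧
      (∀ z, ι z = 0 → P' z = P z) ∧
      (∀ g, P' g ^ p - P' g = tr (ι g) (f₀.map (ZMod.castHom (dvd_refl p) k))
        - f₀.map (ZMod.castHom (dvd_refl p) k)) := by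
  classical
  set F := frobenius k p with hF
  have : Fintype (range' ι hι) := Fintype.ofFinite _
  have hι1 : ι 1 = 0 := iota_one ι hι
  -- first potential
  obtain ⟨f1, hf1⟩ := exists_coboundary ι hι (fun g => P g ^ p - P g) (by
    intro g h
    rw [hP, wp_add, map_sub, map_pow]) (by
    intro g hg
    obtain ⟨a, ha⟩ := hPz g hg
    rw [ha, ← C_pow, ← map_pow, ZMod.pow_card, sub_self])
  -- the cocycle comparing `P ∘ φ` with the Frobenius twist of `P`
  obtain ⟨L, hL⟩ := exists_coboundary ι hι (fun g => P g - (P (φ.symm g)).map F) (by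
    intro g h
    have h1 : ι g = F (ι (φ.symm g)) := by
      rw [hF, frobenius_def, ← hφ, MulEquiv.apply_symm_apply]
    rw [hP, map_mul, hP, Polynomial.map_add, tr_map, ← h1, map_sub]
    ring) (by
    intro g hg
    have h2 : φ.symm g = g := by
      rw [MulEquiv.symm_apply_eq, hφz g hg]
    obtain ⟨a, ha⟩ := hPz g hg
    rw [h2, ha, map_C, hF, frobenius_def, ← map_pow, ZMod.pow_card, sub_self])
  -- the difference is invariant
  set E := f1.map F - f1 + (L ^ p - L) with hE
  have hEinv : ∀ v ∈ range' ι hι, tr v E = E := by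
    rintro _ ⟨g, rfl⟩
    have h1 : ι g = F (ι (φ.symm g)) := by
      rw [hF, frobenius_def, ← hφ, MulEquiv.apply_symm_apply]
    have h2 := congrArg (Polynomial.map F) (hf1 (φ.symm g))
    simp only [Polynomial.map_sub, Polynomial.map_pow, tr_map, ← h1] at h2
    have h3 := hf1 g
    have h4 := hL g
    -- `P g = (P (φ⁻¹ g))^F + tr L - L`
    have h5 : P g = (P (φ.symm g)).map F + (tr (ι g) L - L) := by rw [← h4]; ring
    have h6 := wp_add p ((P (φ.symm g)).map F) (tr (ι g) L - L)
    rw [← h5, h3, h2, wp_sub] at h6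
    rw [hE, map_add, map_sub, map_sub, map_pow]
    linear_combination -h6
  obtain ⟨M, hM⟩ := lang_poly p L
  obtain ⟨g0, hg0inv, hg0⟩ := invariant_solve p (range' ι hι) (by
    rintro _ ⟨g, rfl⟩
    exact ⟨φ g, by rw [hφ, frobenius_def]⟩) (E.natDegree + 1) E (Nat.lt_succ_self _) hEinv
  -- corrected potential
  set f3 := f1 + (M ^ p - M) - g0 with hf3
  have hfix : f3.map F = f3 := by
    have h1 : M.map F = M + L := by rw [← hM]; ring
    have h2 : g0.map F = g0 + E := by rw [← hg0]; ring
    rw [hf3, Polynomial.map_sub, Polynomial.map_add, Polynomial.map_sub, Polynomial.map_pow,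
      h1, h2, wp_add, hE]
    ring
  obtain ⟨f₀, hf₀⟩ := exists_map_of_fixed p f3 hfix
  refine ⟨f₀, fun g => P g + (tr (ι g) M - M), ?_, ?_, ?_⟩
  · intro g h
    beta_reduce
    rw [hP, hι, map_add, map_sub, tr_tr]
    ring
  · intro z hz
    simp only [hz, tr_zero, sub_self, add_zero]
  · intro g
    have h1 := hf1 g
    beta_reduce
    rw [hf₀, wp_add, h1, wp_sub, hf3, map_sub, map_add, map_sub, map_pow,
      hg0inv (ι g) ⟨g, rfl⟩]
    ring

end descent

end Pool.Agent.Helper50.AS
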