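import Mathlib
import Pool.Agent.Helper50.AS.Descent

/-!
# Making the Artin-Schreier datum rigid

We add to the potential a large power of the additive polynomial of `V`, so that the reduced
degree becomes large and prime to `p` and no translation outside `V` survives.
-/

set_option autoImplicit false

open Polynomial

namespace Pool.Agent.Helper50.AS

variable {k : Type} [Field k] (p : ℕ) [Fact p.Prime] [CharP k p]

omit [Fact p.Prime] in
lemma natDegree_shift_pow_sub (γ : k) (hγ : γ ≠ 0) (N : ℕ) (hN : (N : k) ≠ 0) :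
    ((X + C γ : k[X]) ^ N - X ^ N).natDegree = N - 1 := by
  have hN0 : N ≠ 0 := by rintro rfl; simp at hN
  obtain ⟨m, rfl⟩ : ∃ m, N = m + 1 := ⟨N - 1, by omega⟩
  have hcoeff : ((X + C γ : k[X]) ^ (m + 1) - X ^ (m + 1)).coeff m = γ * ((m + 1 : ℕ) : k) := by
    rw [coeff_sub, coeff_X_add_C_pow, coeff_X_pow, if_neg (by omega), sub_zero]
    simp
  have hne : ((X + C γ : k[X]) ^ (m + 1) - X ^ (m + 1)) ≠ 0 := by
    intro h
    rw [h, coeff_zero] at hcoeff
    exact mul_ne_zero hγ hN hcoeff.symm
  apply le_antisymm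
  · have h1 : ((X + C γ : k[X]) ^ (m + 1) - X ^ (m + 1)).degree < ((X + C γ : k[X]) ^ (m + 1)).degree := by
      apply degree_sub_lt_left
      · rw [degree_pow, degree_X_add_C, degree_X_pow]; simp
      · exact (monic_X_add_C γ).pow (m + 1) |>.ne_zero
      · rw [((monic_X_add_C γ).pow (m + 1)).leadingCoeff, (monic_X_pow (m + 1)).leadingCoeff]
    rw [degree_eq_natDegree hne, degree_pow, degree_X_add_C] at h1
    have h2 : ((X + C γ : k[X]) ^ (m + 1) - X ^ (m + 1)).natDegree < m + 1 := by
      have : (m + 1) • (1 : WithBot ℕ) = ((m + 1 : ℕ) : WithBot ℕ) := by simp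
      rw [this] at h1
      exact_mod_cast h1
    omega
  · apply le_natDegree_of_ne_zero
    rw [Nat.add_sub_cancel, hcoeff]
    exact mul_ne_zero hγ hN

/-- reduction modulo `R ↦ R^p - R` over the prime field -/
lemma exists_reduced : ∀ (n : ℕ) (f : (ZMod p)[X]), f.natDegree < n →
    ∃ R : (ZMod p)[X], R.natDegree * p ≤ f.natDegree ∧
      ((f - (R ^ p - R)).natDegree = 0 ∨ ¬ p ∣ (f - (R ^ p - R)).natDegree) := by
  have hp : 1 < p := (Fact.out : p.Prime).one_lt
  intro n
  induction n with
  | zero => intro f hf; exact absurd hf (Nat.not_lt_zero _)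
  | succ n ih =>
    intro f hf
    by_cases h : f.natDegree = 0 ∨ ¬ p ∣ f.natDegree
    · refine ⟨0, by simp, ?_⟩
      simpa [zero_pow (by omega : p ≠ 0)] using h
    push Not at h
    obtain ⟨h0, d, hd⟩ := h
    have hd0 : 0 < d := Nat.pos_of_ne_zero (by rintro rfl; simp at hd; exact h0 hd)
    have hdlt : d < p * d := by nlinarith
    set a := f.leadingCoeff with ha
    have ha0 : a ≠ 0 := leadingCoeff_ne_zero.2 (by rintro rfl; simp at h0)
    set S : (ZMod p)[X] := C a * X ^ d with hS
    have hSp : S ^ p = C a * X ^ (p * d) := by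
      rw [hS, mul_pow, ← C_pow, ZMod.pow_card, ← pow_mul, mul_comm d p]
    have hSdeg : S.natDegree = d := natDegree_C_mul_X_pow d a ha0
    have hf' : (f - (S ^ p - S)).natDegree < f.natDegree := by
      have h1 : (f - S ^ p).natDegree < f.natDegree := by
        have h2 : (f - S ^ p).degree < f.degree := by
          apply degree_sub_lt_left
          · rw [hSp, degree_C_mul_X_pow _ ha0, degree_eq_natDegree (by rintro rfl; simp at h0), hd]
          · rintro rfl; simp at h0
          · rw [hSp, leadingCoeff_C_mul_X_pow]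
        by_cases hz : f - S ^ p = 0
        · rw [hz, natDegree_zero]; omega
        · rw [degree_eq_natDegree hz, degree_eq_natDegree (by rintro rfl; simp at h0)] at h2
          exact_mod_cast h2
      have h3 : f - (S ^ p - S) = (f - S ^ p) + S := by ring
      rw [h3]
      refine lt_of_le_of_lt (natDegree_add_le _ _) (max_lt h1 ?_)
      rw [hSdeg, hd]; exact hdlt
    obtain ⟨R, hR1, hR2⟩ := ih (f - (S ^ p - S)) (by omega)
    refine ⟨S + R, ?_, ?_⟩
    · have h1 : (S + R).natDegree ≤ max S.natDegree R.natDegree := natDegree_add_le _ _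
      rw [hSdeg] at h1
      rcases le_total d R.natDegree with h2 | h2
      · rw [max_eq_right h2] at h1
        calc (S + R).natDegree * p ≤ R.natDegree * p := Nat.mul_le_mul_right p h1
          _ ≤ _ := hR1
          _ ≤ _ := hf'.le
      · rw [max_eq_left h2] at h1
        calc (S + R).natDegree * p ≤ d * p := Nat.mul_le_mul_right p h1
          _ = f.natDegree := by rw [hd, mul_comm]
    · have h4 : f - ((S + R) ^ p - (S + R)) = f - (S ^ p - S) - (R ^ p - R) := by
        rw [add_pow_char]; ring
      rw [h4]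
      exact hR2

variable {G : Type} [Group G]

theorem exists_big [IsAlgClosed k] [Finite G] (ι : G → k)
    (hι : ∀ g h, ι (g * h) = ι g + ι h) (hFι : ∀ g, ∃ g', ι g' = (ι g) ^ p)
    (f₀ : (ZMod p)[X]) (P : G → k[X])
    (hP : ∀ g h, P (g * h) = P g + tr (ι g) (P h))
    (hPf : ∀ g, P g ^ p - P g = tr (ι g) (f₀.map (ZMod.castHom (dvd_refl p) k))
        - f₀.map (ZMod.castHom (dvd_refl p) k)) :
    ∃ (f₁ : (ZMod p)[X]) (P' : G → k[X]),
      (∀ g h, P' (g * h) = P' g + tr (ι g) (P' h)) ∧
      (∀ z, ι z = 0 → P' z = P z) ∧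
      (∀ g, P' g ^ p - P' g = tr (ι g) (f₁.map (ZMod.castHom (dvd_refl p) k))
        - f₁.map (ZMod.castHom (dvd_refl p) k)) ∧
      ¬ p ∣ (f₁.map (ZMod.castHom (dvd_refl p) k)).natDegree ∧
      p ^ 2 < (f₁.map (ZMod.castHom (dvd_refl p) k)).natDegree ∧
      (∀ b : k, (∃ h : k[X], h ^ p - h = tr b (f₁.map (ZMod.castHom (dvd_refl p) k))
        - f₁.map (ZMod.castHom (dvd_refl p) k)) → ∃ g, ι g = b) := by
  classical
  have hp : 1 < p := (Fact.out : p.Prime).one_lt
  have : Fintype (range' ι hι) := Fintype.ofFinite _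
  set c : ZMod p →+* k := ZMod.castHom (dvd_refl p) k with hc
  set f := f₀.map c with hf
  set V := range' ι hι with hV
  have hFV : ∀ v ∈ V, frobenius k p v ∈ V := by
    rintro _ ⟨g, rfl⟩
    obtain ⟨g', hg'⟩ := hFι g
    exact ⟨g', by rw [hg', frobenius_def]⟩
  obtain ⟨σ₀, hσ₀⟩ := exists_map_of_fixed p (sig V) (sig_map V _ hFV)
  change σ₀.map c = sig V at hσ₀
  set q := Fintype.card V with hq
  have hq0 : 0 < q := sig_card_pos V
  obtain ⟨c0, hc0, hσ'⟩ := sig_derivative V
  -- exponents
  set t := f.natDegree + 1 with ht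
  set N1 := 1 + p * t with hN1
  set N := 1 + p * N1 with hN
  have hN1k : (N1 : k) = 1 := by rw [hN1]; push_cast; rw [CharP.cast_eq_zero]; ring
  have hNk : (N : k) = 1 := by rw [hN]; push_cast; rw [CharP.cast_eq_zero]; ring
  have ht1 : 1 ≤ t := by omega
  have hN1big : p + 1 ≤ N1 := by
    have : p * 1 ≤ p * t := Nat.mul_le_mul_left p ht1
    omega
  -- the enlarged potential
  set f4₀ : (ZMod p)[X] := f₀ + σ₀ ^ N with hf4₀
  have hf4 : f4₀.map c = f + sig V ^ N := by
    rw [hf4₀, Polynomial.map_add, Polynomial.map_pow, hσ₀]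
  have hfdeg : f.natDegree < q * (p * (N1 - 1)) := by
    have h1 : N1 - 1 = p * t := by omega
    rw [h1]
    have h2 : 1 * t ≤ p * (p * t) := by nlinarith [Nat.mul_le_mul hp.le (Nat.mul_le_mul hp.le ht1)]
    have h3 : 1 * (p * (p * t)) ≤ q * (p * (p * t)) := Nat.mul_le_mul_right _ hq0
    omega
  have hfdeg2 : f.natDegree < q * (p * N1) :=
    lt_of_lt_of_le hfdeg (Nat.mul_le_mul_left q (Nat.mul_le_mul_left p (Nat.sub_le _ _)))
  have hσN : (sig V ^ N).natDegree = N * q := by
    rw [(sig_monic V).natDegree_pow, sig_natDegree]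
  have hf4deg : (f4₀.map c).natDegree ≤ N * q := by
    rw [hf4]
    refine le_trans (natDegree_add_le _ _) (max_le ?_ hσN.le)
    have : q * (p * N1) ≤ N * q := by rw [hN]; nlinarith
    omega
  obtain ⟨R₀, hR₀, hred⟩ := exists_reduced p (f4₀.natDegree + 1) f4₀ (Nat.lt_succ_self _)
  set R := R₀.map c with hR
  have hcinj : Function.Injective c := c.injective
  have hRdeg : R.natDegree * p ≤ N * q := by
    rw [hR, natDegree_map_eq_of_injective hcinj]
    refine le_trans hR₀ ?_
    rw [← natDegree_map_eq_of_injective hcinj f4₀]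
    exact hf4deg
  -- `R` has small degree
  have hRsmall : R.natDegree < q * (p * N1) := by
    by_contra hcon
    push Not at hcon
    have h1 : q * (p * N1) * p ≤ N * q := le_trans (Nat.mul_le_mul_right p hcon) hRdeg
    have h2 : q * (p * N1 * p) ≤ q * N := by
      calc q * (p * N1 * p) = q * (p * N1) * p := by ring
        _ ≤ N * q := h1
        _ = q * N := by ring
    have h3 : p * N1 * p ≤ N := Nat.le_of_mul_le_mul_left h2 hq0
    have h4 : p * N1 * 2 ≤ p * N1 * p := Nat.mul_le_mul_left _ hp
    have h5 : 2 * 1 ≤ p * N1 := Nat.mul_le_mul hp (by omega)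
    omega
  set f1₀ : (ZMod p)[X] := f4₀ - (R₀ ^ p - R₀) with hf1₀
  have hf1 : f1₀.map c = f4₀.map c - (R ^ p - R) := by
    rw [hf1₀, Polynomial.map_sub, Polynomial.map_sub, Polynomial.map_pow]
  -- derivative of the enlarged potential
  have hder4 : derivative (f4₀.map c) = derivative f + C c0 * sig V ^ (p * N1) := by
    rw [hf4, derivative_add, derivative_pow, hσ', hNk]
    rw [show N - 1 = p * N1 by omega]
    simp only [C_1, one_mul]
    ring
  have hderdeg : (derivative (f4₀.map c)).natDegree = q * (p * N1) := by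
    rw [hder4]
    have h1 : (C c0 * sig V ^ (p * N1)).natDegree = q * (p * N1) := by
      rw [natDegree_C_mul hc0, (sig_monic V).natDegree_pow, sig_natDegree, mul_comm]
    have h2 : (derivative f).natDegree < (C c0 * sig V ^ (p * N1)).natDegree := by
      rw [h1]
      exact lt_of_le_of_lt (le_trans (natDegree_derivative_le f) (Nat.sub_le _ _)) hfdeg2
    rw [natDegree_add_eq_right_of_natDegree_lt h2, h1]
  have hder1 : derivative (f1₀.map c) = derivative (f4₀.map c) + derivative R := by
    rw [hf1, derivative_sub, derivative_sub, derivative_pow, CharP.cast_eq_zero]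
    simp
  have hder1deg : (derivative (f1₀.map c)).natDegree = q * (p * N1) := by
    rw [hder1, natDegree_add_eq_left_of_natDegree_lt, hderdeg]
    rw [hderdeg]
    exact lt_of_le_of_lt (le_trans (natDegree_derivative_le R) (Nat.sub_le _ _)) hRsmall
  have hqpN : p * (p + 1) ≤ q * (p * N1) := by
    calc p * (p + 1) ≤ p * N1 := Nat.mul_le_mul_left p hN1big
      _ = 1 * (p * N1) := (one_mul _).symm
      _ ≤ q * (p * N1) := Nat.mul_le_mul_right _ hq0
  have hbig : q * (p * N1) < (f1₀.map c).natDegree := by
    rw [← hder1deg]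
    apply natDegree_derivative_lt
    intro h0
    have h1 : derivative (f1₀.map c) = 0 := by
      rw [eq_C_of_natDegree_eq_zero h0, derivative_C]
    rw [h1, natDegree_zero] at hder1deg
    have : 0 < p * (p + 1) := by positivity
    omega
  refine ⟨f1₀, fun g => P g - (tr (ι g) R - R), ?_, ?_, ?_, ?_, ?_, ?_⟩
  · intro g h
    beta_reduce
    rw [hP, hι, map_sub, map_sub, tr_tr]
    ring
  · intro z hz
    simp only [hz, tr_zero, sub_self, sub_zero]
  · intro g
    beta_reduce
    have hσinv : tr (ι g) (sig V) = sig V := tr_sig V ⟨ι g, g, rfl⟩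
    rw [wp_sub, hPf, wp_sub, hf1, hf4, map_sub, map_sub, map_add, map_pow, map_pow, hσinv]
    ring
  · rw [natDegree_map_eq_of_injective hcinj]
    rcases hred with h | h
    · exfalso
      rw [natDegree_map_eq_of_injective hcinj, hf1₀, h] at hbig
      omega
    · exact h
  · have : p ^ 2 ≤ p * (p + 1) := by nlinarith
    omega
  · rintro b ⟨h, hh⟩
    by_contra hcon
    -- pass to the unreduced potential
    set h4 := h + (tr b R - R) with hh4
    have hu : h4 ^ p - h4 = tr b (f4₀.map c) - f4₀.map c := by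
      rw [hh4, wp_add, hh, wp_sub, hf1, map_sub, map_sub, map_pow]
      ring
    set β := (sig V).eval b with hβ
    have hβ0 : β ≠ 0 := fun h0 => hcon (by
      obtain ⟨g, hg⟩ := mem_of_sig_eval V h0
      exact ⟨g, hg⟩)
    -- compare derivatives
    have hd : -derivative h4 = (tr b (derivative f) - derivative f)
        + C c0 * ((sig V + C β) ^ (p * N1) - sig V ^ (p * N1)) := by
      have h0 : derivative (h4 ^ p - h4) = -derivative h4 := by
        rw [derivative_sub, derivative_pow, CharP.cast_eq_zero, C_0, zero_mul, zero_mul, zero_sub]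
      have h1 := congrArg derivative hu
      rw [h0, derivative_sub, tr_derivative, hder4] at h1
      have h2 : tr b (sig V) = sig V + C β := sig_add V b
      have h3 : tr b (derivative f + C c0 * sig V ^ (p * N1))
          = tr b (derivative f) + C c0 * (sig V + C β) ^ (p * N1) := by
        rw [map_add, map_mul, map_pow, tr_C, h2]
      rw [h1, h3]; ring
    have hGdeg : ((sig V + C β) ^ (p * N1) - sig V ^ (p * N1)).natDegree = q * (p * (N1 - 1)) := by
      have h1 : (sig V + C β) ^ (p * N1) - sig V ^ (p * N1)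
          = ((X + C (β ^ p)) ^ N1 - X ^ N1 : k[X]).comp (sig V ^ p) := by
        rw [pow_mul, pow_mul, add_pow_char, ← C_pow]
        simp
      rw [h1, natDegree_comp, natDegree_shift_pow_sub _ (pow_ne_zero p hβ0) N1 (by rw [hN1k]; exact one_ne_zero),
        (sig_monic V).natDegree_pow, sig_natDegree]
      ring
    have hrhs : (-derivative h4).natDegree = q * (p * (N1 - 1)) := by
      rw [hd]
      have h1 : (C c0 * ((sig V + C β) ^ (p * N1) - sig V ^ (p * N1))).natDegree
          = q * (p * (N1 - 1)) := by rw [natDegree_C_mul hc0, hGdeg]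
      rw [natDegree_add_eq_right_of_natDegree_lt, h1]
      rw [h1]
      refine lt_of_le_of_lt (natDegree_sub_le _ _) ?_
      rw [tr_natDegree, max_self]
      exact lt_of_le_of_lt (le_trans (natDegree_derivative_le f) (Nat.sub_le _ _)) hfdeg
    -- degree of `h4`
    have hh4deg : h4.natDegree * p ≤ N * q := by
      rcases Nat.eq_zero_or_pos h4.natDegree with h0 | h0
      · rw [h0, zero_mul]; exact Nat.zero_le _
      have h1 : (h4 ^ p - h4).natDegree = h4.natDegree * p := by
        have h2 : h4.natDegree < (h4 ^ p).natDegree := by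
          rw [natDegree_pow]; nlinarith
        rw [natDegree_sub_eq_left_of_natDegree_lt h2, natDegree_pow, mul_comm]
      rw [← h1, hu]
      refine le_trans (natDegree_sub_le _ _) ?_
      rw [tr_natDegree, max_self]
      exact hf4deg
    have hlt : (-derivative h4).natDegree < h4.natDegree := by
      rw [natDegree_neg]
      apply natDegree_derivative_lt
      intro h0
      have h1 : derivative h4 = 0 := by rw [eq_C_of_natDegree_eq_zero h0, derivative_C]
      rw [h1, neg_zero, natDegree_zero] at hrhs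
      have h5 : 0 < q * (p * (N1 - 1)) := by
        apply Nat.mul_pos hq0 (Nat.mul_pos (by omega) (by omega))
      omega
    rw [hrhs] at hlt
    -- arithmetic contradiction
    have h6 : q * (p * (N1 - 1)) * p < N * q :=
      lt_of_lt_of_le (Nat.mul_lt_mul_of_pos_right hlt (by omega)) hh4deg
    have h7 : q * (p * (N1 - 1) * p) < q * N := by
      calc q * (p * (N1 - 1) * p) = q * (p * (N1 - 1)) * p := by ring
        _ < N * q := h6
        _ = q * N := by ring
    have h8 : p * (N1 - 1) * p < N := Nat.lt_of_mul_lt_mul_left h7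
    have h9 : p * (N1 - 1) * 2 ≤ p * (N1 - 1) * p := Nat.mul_le_mul_left _ hp
    have h10 : p * N1 = p * (N1 - 1) + p := by
      obtain ⟨m, hm⟩ : ∃ m, N1 = m + 1 := ⟨N1 - 1, by omega⟩
      rw [hm]; simp; ring
    have h11 : p * p ≤ p * (N1 - 1) := Nat.mul_le_mul_left p (by omega)
    have h12 : 2 * p ≤ p * p := Nat.mul_le_mul_right p hp
    omega

end Pool.Agent.Helper50.AS
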