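import Mathlib
import Pool.Agent.Helper50.AS.Descent

/-!
# A generator of the Frobenius module `{x : x^(p^(2m)) - x^(p^m) + x = 0}`
-/

set_option autoImplicit false

open Polynomial

namespace Pool.Agent.Helper50.AS

variable {k : Type} [Field k] (p : ℕ) [Fact p.Prime] [CharP k p]

/-- the additive polynomial `Y^(p^(2m)) - Y^(p^m) + Y` -/
noncomputable def Lpoly (k : Type) [Field k] (p m : ℕ) : k[X] := X ^ p ^ (2 * m) - X ^ p ^ m + X

/-- the corresponding additive map -/
def uu (m : ℕ) (x : k) : k := x ^ p ^ (2 * m) - x ^ p ^ m + x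

lemma uu_add (m : ℕ) (x y : k) : uu p m (x + y) = uu p m x + uu p m y := by
  simp only [uu, add_pow_char_pow]; ring

lemma cast_pow_char_pow (c : ZMod p) (n : ℕ) :
    (ZMod.castHom (dvd_refl p) k c) ^ p ^ n = ZMod.castHom (dvd_refl p) k c := by
  rw [← map_pow, ZMod.pow_card_pow]

lemma uu_smul (m : ℕ) (c : ZMod p) (x : k) :
    uu p m (ZMod.castHom (dvd_refl p) k c * x) = ZMod.castHom (dvd_refl p) k c * uu p m x := by
  simp only [uu, mul_pow, cast_pow_char_pow]; ring

lemma uu_pow (m : ℕ) (x : k) : uu p m (x ^ p) = (uu p m x) ^ p := by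
  simp only [uu, add_pow_char, sub_pow_char, ← pow_mul, mul_comm p]

lemma exists_generator [IsAlgClosed k] (m : ℕ) (hm : 0 < m) :
    ∃ α : k, uu p m α = 0 ∧ ∀ a : ℕ → ZMod p,
      ∑ i ∈ Finset.range (2 * m), ZMod.castHom (dvd_refl p) k (a i) * α ^ p ^ i = 0 →
        ∀ i < 2 * m, a i = 0 := by
  classical
  have hp : 1 < p := (Fact.out : p.Prime).one_lt
  let _ : Algebra (ZMod p) k := ZMod.algebra k p
  have hcast : ∀ c : ZMod p, algebraMap (ZMod p) k c = ZMod.castHom (dvd_refl p) k c := fun c => rfl
  set L := Lpoly k p m with hL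
  have hlt : p ^ m < p ^ (2 * m) := Nat.pow_lt_pow_right hp (by omega)
  have h1lt : 1 < p ^ (2 * m) := Nat.one_lt_pow (by omega) hp
  have hLdeg : L.natDegree = p ^ (2 * m) := by
    have h1 : (X ^ p ^ (2 * m) - X ^ p ^ m : k[X]).natDegree = p ^ (2 * m) := by
      rw [natDegree_sub_eq_left_of_natDegree_lt, natDegree_X_pow]
      rw [natDegree_X_pow, natDegree_X_pow]; exact hlt
    rw [hL, Lpoly, natDegree_add_eq_left_of_natDegree_lt, h1]
    rw [h1, natDegree_X]; exact h1lt
  have hLder : derivative L = 1 := by
    have e1 : ((p ^ (2 * m) : ℕ) : k) = 0 := by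
      rw [Nat.cast_pow, CharP.cast_eq_zero, zero_pow (by omega)]
    have e2 : ((p ^ m : ℕ) : k) = 0 := by
      rw [Nat.cast_pow, CharP.cast_eq_zero, zero_pow (by omega)]
    rw [hL, Lpoly, derivative_add, derivative_sub, derivative_X_pow, derivative_X_pow, e1, e2]
    simp
  have hLsep : L.Separable := by
    rw [separable_def, hLder]
    exact isCoprime_one_right
  have hcard : Fintype.card (L.rootSet k) = p ^ (2 * m) := by
    rw [card_rootSet_eq_natDegree hLsep (IsAlgClosed.splits _), hLdeg]
  have hL0 : L ≠ 0 := by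
    intro h
    rw [h, natDegree_zero] at hLdeg
    omega
  have hroot : ∀ x : k, x ∈ L.rootSet k ↔ uu p m x = 0 := by
    intro x
    rw [mem_rootSet]
    constructor
    · rintro ⟨-, h⟩
      simpa [hL, Lpoly, uu] using h
    · intro h
      exact ⟨hL0, by simpa [hL, Lpoly, uu] using h⟩
  -- the module
  set U : Submodule (ZMod p) k :=
    { carrier := {x | uu p m x = 0}
      zero_mem' := by
        have h1 : p ^ (2 * m) ≠ 0 := by positivity
        have h2 : p ^ m ≠ 0 := by positivity
        change uu p m 0 = 0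
        rw [uu, zero_pow h1, zero_pow h2]; ring
      add_mem' := fun {a b} ha hb => by
        have ha' : uu p m a = 0 := ha
        have hb' : uu p m b = 0 := hb
        change uu p m (a + b) = 0
        rw [uu_add, ha', hb', add_zero]
      smul_mem' := fun c x hx => by
        have hx' : uu p m x = 0 := hx
        change uu p m (c • x) = 0
        rw [Algebra.smul_def, hcast, uu_smul, hx', mul_zero] } with hU
  have hUmem : ∀ x : k, x ∈ U ↔ uu p m x = 0 := fun x => Iff.rfl
  have hUfin : Finite U := by
    have h1 : (U : Set k) = L.rootSet k := by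
      ext x; rw [hroot]; exact Iff.rfl
    have h2 : (U : Set k).Finite := by rw [h1]; exact Set.toFinite _
    exact h2.to_subtype
  set fU : U →ₗ[ZMod p] U :=
    { toFun := fun x => ⟨(x : k) ^ p, by
        rw [hUmem, uu_pow, (hUmem _).1 x.2, zero_pow (by omega)]⟩
      map_add' := fun x y => Subtype.ext (by
        simp only [Submodule.coe_add]
        exact add_pow_char _ _ _)
      map_smul' := fun c x => Subtype.ext (by
        simp only [Submodule.coe_smul, RingHom.id_apply]
        rw [Algebra.smul_def, Algebra.smul_def, mul_pow, hcast]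
        congr 1
        simpa using cast_pow_char_pow (k := k) p c 1) } with hfU
  have hfU1 : ∀ x : U, ((fU x : U) : k) = (x : k) ^ p := fun x => rfl
  have hfUn : ∀ (n : ℕ) (x : U), (((fU ^ n) x : U) : k) = (x : k) ^ p ^ n := by
    intro n
    induction n with
    | zero => intro x; simp
    | succ n ih =>
      intro x
      rw [pow_succ', Module.End.mul_apply, hfU1, ih, ← pow_mul, ← pow_succ]
  obtain ⟨y, hy⟩ := Module.exists_ker_toSpanSingleton_eq_annihilator (ZMod p)[X]
    (Module.AEval' fU)
  obtain ⟨α, rfl⟩ := (Module.AEval'.of fU).surjective y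
  refine ⟨α, (hUmem _).1 α.2, ?_⟩
  intro a ha
  -- the polynomial relation
  set R : (ZMod p)[X] := ∑ i ∈ Finset.range (2 * m), C (a i) * X ^ i with hR
  have hact : ∀ x : U, ((aeval fU R x : U) : k)
      = ∑ i ∈ Finset.range (2 * m), ZMod.castHom (dvd_refl p) k (a i) * (x : k) ^ p ^ i := by
    intro x
    rw [hR, map_sum, LinearMap.sum_apply, Submodule.coe_sum]
    apply Finset.sum_congr rfl
    intro i _
    rw [map_mul, aeval_C, map_pow, aeval_X, Module.End.mul_apply, Module.algebraMap_end_apply,
      Submodule.coe_smul, hfUn, Algebra.smul_def, hcast]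
  have hRα : aeval fU R α = 0 := Subtype.ext (by rw [hact]; exact ha)
  have hmem : R ∈ LinearMap.ker (LinearMap.toSpanSingleton (ZMod p)[X] (Module.AEval' fU)
      (Module.AEval'.of fU α)) := by
    rw [LinearMap.mem_ker, LinearMap.toSpanSingleton_apply]
    have h1 : R • (Module.AEval'.of fU α) = Module.AEval'.of fU (aeval fU R α) := by
      exact Module.AEval.of_aeval_smul _ _ _ |>.symm
    rw [h1, hRα, map_zero]
  rw [hy, Module.mem_annihilator] at hmem
  have hall : ∀ x : U, aeval fU R x = 0 := by
    intro x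
    have h1 := hmem (Module.AEval'.of fU x)
    have h2 : R • (Module.AEval'.of fU x) = Module.AEval'.of fU (aeval fU R x) := by
      exact Module.AEval.of_aeval_smul _ _ _ |>.symm
    rw [h2] at h1
    exact (Module.AEval'.of fU).map_eq_zero_iff.1 h1
  -- the additive polynomial with too many roots
  set W : k[X] := ∑ i ∈ Finset.range (2 * m), C (ZMod.castHom (dvd_refl p) k (a i)) * X ^ p ^ i
    with hW
  have hWdeg : W.natDegree < p ^ (2 * m) := by
    have h1 : W.natDegree ≤ p ^ (2 * m - 1) := by
      apply natDegree_sum_le_of_forall_le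
      intro i hi
      rw [Finset.mem_range] at hi
      exact le_trans (natDegree_C_mul_X_pow_le _ _) (Nat.pow_le_pow_right (by omega) (by omega))
    exact lt_of_le_of_lt h1 (Nat.pow_lt_pow_right hp (by omega))
  have hW0 : W = 0 := by
    apply eq_zero_of_natDegree_lt_card_of_eval_eq_zero W
      (f := fun x : L.rootSet k => (x : k)) Subtype.coe_injective
    · intro x
      have hx : (x : k) ∈ U := (hUmem _).2 ((hroot _).1 x.2)
      have h1 := congrArg Subtype.val (hall ⟨x, hx⟩)
      rw [hact] at h1
      rw [hW, eval_finsetSum]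
      simpa using h1
    · rw [hcard]; exact hWdeg
  intro i hi
  have h1 := congrArg (fun q => q.coeff (p ^ i)) hW0
  simp only [hW, finsetSum_coeff, coeff_C_mul, coeff_X_pow, coeff_zero] at h1
  rw [Finset.sum_eq_single i] at h1
  · simp only [if_true, mul_one] at h1
    exact (ZMod.castHom (dvd_refl p) k).injective (by rw [h1, map_zero])
  · intro j _ hj
    rw [if_neg, mul_zero]
    intro h2
    exact hj (Nat.pow_right_injective hp h2).symm
  · intro h2
    exact absurd (Finset.mem_range.2 hi) h2

end Pool.Agent.Helper50.AS
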