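import Mathlib

/-!
# Normal form of an alternating form together with a power map over `ZMod p`
-/

set_option autoImplicit false

namespace Pool.Agent.Helper50.AS

lemma zmod2_cases (c : ZMod 2) : c = 0 ∨ c = 1 := by revert c; decide

lemma zmod2_two : (2 : ZMod 2) = 0 := rfl

variable {p : ℕ} [Fact p.Prime]

/-- `i`-th entry of a vector, or zero -/
def at' {s : ℕ} (a : Fin s → ZMod p) (i : ℕ) : ZMod p := if h : i < s then a ⟨i, h⟩ else 0

/-- the model space -/
abbrev Mod (p s m : ℕ) : Type := (Fin s → ZMod p) × (Fin m → ZMod p) × (Fin m → ZMod p)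

/-- the model alternating form -/
def Bm {s m : ℕ} (t : ZMod p) (u v : Mod p s m) : ZMod p :=
  t * (at' u.1 0 * at' v.1 1 - at' u.1 1 * at' v.1 0)
    + ∑ j, (u.2.1 j * v.2.2 j - u.2.2 j * v.2.1 j)

/-- the model power map -/
def Qm {s m : ℕ} (δ t q : ZMod p) (u : Mod p s m) : ZMod p :=
  q * at' u.1 0 + δ * t * (at' u.1 1 ^ 2 + at' u.1 0 * at' u.1 1)
    + δ * ∑ j, (u.2.1 j ^ 2 + u.2.1 j * u.2.2 j + u.2.2 j ^ 2)

section

variable {V : Type} [AddCommGroup V] [Module (ZMod p) V]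

/-- the assumptions on the pair `(B, Q)` -/
structure Pair (p : ℕ) [Fact p.Prime] (V : Type) [AddCommGroup V] [Module (ZMod p) V]
    (δ : ZMod p) where
  B : V →ₗ[ZMod p] V →ₗ[ZMod p] ZMod p
  alt : ∀ v, B v v = 0
  Q : V → ZMod p
  add : ∀ u v, Q (u + v) = Q u + Q v + δ * B u v
  hδ : (p = 2 ∧ δ = 1) ∨ (p ≠ 2 ∧ δ = 0)

namespace Pair

variable {δ : ZMod p} (D : Pair p V δ)

lemma skew (u v : V) : D.B u v = - D.B v u := by
  have h := D.alt (u + v)
  simp only [map_add, LinearMap.add_apply, D.alt, zero_add, add_zero] at h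
  exact eq_neg_of_add_eq_zero_right h

lemma Q_zero : D.Q 0 = 0 := by
  have h := D.add 0 0
  simp only [add_zero, map_zero, mul_zero] at h
  exact left_eq_add.1 h

include D in
lemma delta_sq (c : ZMod p) : δ * c ^ 2 = δ * c := by
  rcases D.hδ with ⟨hp, hδ⟩ | ⟨hp, hδ⟩
  · subst hp
    rcases zmod2_cases c with rfl | rfl <;> simp
  · rw [hδ]; ring

include D in
lemma two_delta : 2 * δ = 0 := by
  rcases D.hδ with ⟨hp, hδ⟩ | ⟨hp, hδ⟩
  · subst hp
    rw [zmod2_two, zero_mul]
  · rw [hδ]; ring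

lemma Q_smul (c : ZMod p) (v : V) : D.Q (c • v) = c * D.Q v := by
  rcases D.hδ with ⟨hp, hδ⟩ | ⟨hp, hδ⟩
  · subst hp
    rcases zmod2_cases c with rfl | rfl
    · simp [D.Q_zero]
    · simp
  · have hn : ∀ n : ℕ, D.Q (n • v) = n * D.Q v := by
      intro n
      induction n with
      | zero => simp [D.Q_zero]
      | succ n ih =>
        have h0 : ∀ x, δ * x = 0 := fun x => by rw [hδ, zero_mul]
        rw [succ_nsmul, D.add, ih, h0]
        push_cast
        ring
    have h1 := hn c.val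
    rw [ZMod.natCast_zmod_val] at h1
    rw [← h1]
    congr 1
    rw [← Nat.cast_smul_eq_nsmul (ZMod p), ZMod.natCast_zmod_val]

/-- restriction to a submodule -/
def restrict (W : Submodule (ZMod p) V) : Pair p W δ where
  B := (D.B.domRestrict W).compl₂ W.subtype
  alt v := by simp [D.alt]
  Q v := D.Q v
  add u v := by simp [D.add]
  hδ := D.hδ

lemma restrict_B (W : Submodule (ZMod p) V) (u v : W) : (D.restrict W).B u v = D.B u v := by
  simp [restrict]

lemma restrict_Q (W : Submodule (ZMod p) V) (u : W) : (D.restrict W).Q u = D.Q u := rfl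

/-- a plane of the standard type -/
def IsPlane (e e' : V) : Prop := D.Q e = δ ∧ D.Q e' = δ ∧ D.B e e' = 1

/-- the existence of a parametrisation by a model -/
def HasParam : Prop :=
  ∃ (s m : ℕ) (t q : ZMod p) (Φ : Mod p s m →ₗ[ZMod p] V), (t = 0 ∨ 2 ≤ s) ∧
    Function.Bijective Φ ∧ (∀ u v, D.B (Φ u) (Φ v) = Bm t u v) ∧ (∀ u, D.Q (Φ u) = Qm δ t q u)


/-- a linear bijection from coordinates -/
lemma exists_coords (W : Type) [AddCommGroup W] [Module (ZMod p) W] [Module.Finite (ZMod p) W] :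
    ∃ (r : ℕ) (Ψ : (Fin r → ZMod p) →ₗ[ZMod p] W), Function.Bijective Ψ :=
  ⟨_, (Module.finBasis (ZMod p) W).equivFun.symm.toLinearMap,
    (Module.finBasis (ZMod p) W).equivFun.symm.bijective⟩

lemma hasParam_zero [Module.Finite (ZMod p) V] (hB : ∀ u v, D.B u v = 0) (hQ : ∀ v, D.Q v = 0) :
    D.HasParam := by
  obtain ⟨r, Ψ, hΨ⟩ := exists_coords (p := p) V
  refine ⟨r, 0, 0, 0, Ψ.comp (LinearMap.fst _ _ _), Or.inl rfl, ?_, ?_, ?_⟩
  · refine ⟨fun u v h => ?_, fun v => ?_⟩
    · have h1 : u.1 = v.1 := hΨ.1 (by simpa using h)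
      exact Prod.ext h1 (Subsingleton.elim _ _)
    · obtain ⟨a, ha⟩ := hΨ.2 v
      exact ⟨(a, 0), by simpa using ha⟩
  · intro u v; rw [hB]; simp [Bm]
  · intro u; rw [hQ]; simp [Qm]

lemma hasParam_line [Module.Finite (ZMod p) V] (hB : ∀ u v, D.B u v = 0) (x : V)
    (hx : D.Q x ≠ 0) : D.HasParam := by
  -- the kernel of `Q`
  set W : Submodule (ZMod p) V :=
    { carrier := {v | D.Q v = 0}
      zero_mem' := D.Q_zero
      add_mem' := fun {a b} ha hb => by
        simp only [Set.mem_ofPred_eq] at ha hb ⊢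
        rw [D.add, ha, hb, hB]; ring
      smul_mem' := fun c v hv => by
        simp only [Set.mem_ofPred_eq] at hv ⊢
        rw [D.Q_smul, hv, mul_zero] } with hW
  have hWQ : ∀ w : W, D.Q (w : V) = 0 := fun w => w.2
  obtain ⟨r, Ψ, hΨ⟩ := exists_coords (p := p) W
  set Φ : Mod p (r + 1) 0 →ₗ[ZMod p] V :=
    { toFun := fun u => u.1 0 • x + (Ψ (fun i => u.1 i.succ) : V)
      map_add' := fun u v => by
        have : (fun i : Fin r => (u + v).1 i.succ) = (fun i => u.1 i.succ) + fun i => v.1 i.succ := rfl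
        rw [this, map_add]
        simp only [Prod.fst_add, Pi.add_apply, add_smul, Submodule.coe_add]
        abel
      map_smul' := fun c u => by
        have : (fun i : Fin r => (c • u).1 i.succ) = c • (fun i => u.1 i.succ) := rfl
        rw [this, map_smul]
        simp [mul_smul] } with hΦ
  have hΦa : ∀ u, Φ u = u.1 0 • x + (Ψ (fun i => u.1 i.succ) : V) := fun u => rfl
  have hQΦ : ∀ u, D.Q (Φ u) = u.1 0 * D.Q x := by
    intro u
    rw [hΦa, D.add, D.Q_smul, hWQ, hB]; ring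
  refine ⟨r + 1, 0, 0, D.Q x, Φ, Or.inl rfl, ⟨?_, ?_⟩, ?_, ?_⟩
  · rw [injective_iff_map_eq_zero]
    intro u hu
    have h1 : u.1 0 = 0 := by
      have := hQΦ u
      rw [hu, D.Q_zero] at this
      exact (mul_eq_zero.1 this.symm).resolve_right hx
    rw [hΦa, h1, zero_smul, zero_add] at hu
    have h2 : Ψ (fun i => u.1 i.succ) = 0 := Subtype.ext hu
    have h3 : (fun i : Fin r => u.1 i.succ) = 0 := hΨ.1 (by rw [h2, map_zero])
    refine Prod.ext ?_ (Subsingleton.elim _ _)
    funext i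
    refine Fin.cases h1 (fun j => ?_) i
    exact congrFun h3 j
  · intro v
    set c := D.Q v / D.Q x with hc
    have hw : D.Q (v - c • x) = 0 := by
      have h1 : D.Q v = D.Q ((v - c • x) + c • x) := by simp
      rw [D.add, D.Q_smul, hB] at h1
      have h2 : c * D.Q x = D.Q v := div_mul_cancel₀ _ hx
      rw [h2] at h1
      linear_combination -h1
    obtain ⟨a, ha⟩ := hΨ.2 ⟨v - c • x, hw⟩
    refine ⟨(Fin.cons c a, 0), ?_⟩
    rw [hΦa]
    simp only [Fin.cons_zero, Fin.cons_succ]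
    rw [show (fun i : Fin r => a i) = a from rfl, ha]
    simp
  · intro u v; rw [hB]; simp [Bm]
  · intro u; rw [hQΦ]; simp [Qm, at', mul_comm]

/-- the orthogonal complement of two vectors -/
def orth (e e' : V) : Submodule (ZMod p) V := LinearMap.ker (D.B e) ⊓ LinearMap.ker (D.B e')

lemma mem_orth {e e' v : V} : v ∈ D.orth e e' ↔ D.B e v = 0 ∧ D.B e' v = 0 := by
  simp [orth]

lemma orth_sub (e e' v : V) (h : D.B e e' = 1) :
    v - (D.B v e') • e - (D.B e v) • e' ∈ D.orth e e' := by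
  have h' : D.B e' e = -1 := by rw [D.skew, h]
  rw [mem_orth]
  simp only [map_sub, map_smul, smul_eq_mul, D.alt, h, h']
  constructor
  · ring
  · rw [D.skew v e']; ring

lemma hasParam_two [Module.Finite (ZMod p) V] (x y : V) (hxy : D.B x y = 1) (hy : D.Q y = δ)
    (hWB : ∀ u ∈ D.orth x y, ∀ v ∈ D.orth x y, D.B u v = 0)
    (hWQ : ∀ u ∈ D.orth x y, D.Q u = 0) : D.HasParam := by
  obtain ⟨r, Ψ, hΨ⟩ := exists_coords (p := p) (D.orth x y)
  have hyx : D.B y x = -1 := by rw [D.skew, hxy]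
  set Φ : Mod p (r + 2) 0 →ₗ[ZMod p] V :=
    { toFun := fun u => u.1 0 • x + u.1 1 • y + (Ψ (fun i => u.1 i.succ.succ) : V)
      map_add' := fun u v => by
        have : (fun i : Fin r => (u + v).1 i.succ.succ)
          = (fun i => u.1 i.succ.succ) + fun i => v.1 i.succ.succ := rfl
        rw [this, map_add]
        simp only [Prod.fst_add, Pi.add_apply, add_smul, Submodule.coe_add]
        abel
      map_smul' := fun c u => by
        have : (fun i : Fin r => (c • u).1 i.succ.succ) = c • (fun i => u.1 i.succ.succ) := rfl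
        rw [this, map_smul]
        simp [mul_smul] } with hΦ
  have hΦa : ∀ u, Φ u = u.1 0 • x + u.1 1 • y + (Ψ (fun i => u.1 i.succ.succ) : V) := fun u => rfl
  have hW1 : ∀ w : D.orth x y, D.B x w = 0 := fun w => ((D.mem_orth).1 w.2).1
  have hW2 : ∀ w : D.orth x y, D.B y w = 0 := fun w => ((D.mem_orth).1 w.2).2
  have hW3 : ∀ w : D.orth x y, D.B w x = 0 := fun w => by rw [D.skew, hW1, neg_zero]
  have hW4 : ∀ w : D.orth x y, D.B w y = 0 := fun w => by rw [D.skew, hW2, neg_zero]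
  have hW5 : ∀ w w' : D.orth x y, D.B (w : V) w' = 0 := fun w w' => hWB w w.2 w' w'.2
  have hBΦ : ∀ u v, D.B (Φ u) (Φ v) = u.1 0 * v.1 1 - u.1 1 * v.1 0 := by
    intro u v
    rw [hΦa, hΦa]
    simp only [map_add, LinearMap.add_apply, map_smul, LinearMap.smul_apply, smul_eq_mul, D.alt,
      hxy, hyx, hW1, hW2, hW3, hW4, hW5]
    ring
  have hQΦ : ∀ u, D.Q (Φ u) = u.1 0 * D.Q x + u.1 1 * δ + δ * (u.1 0 * u.1 1) := by
    intro u
    rw [hΦa, D.add, D.add, D.Q_smul, D.Q_smul, hy, hWQ _ (Subtype.property _)]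
    simp only [map_add, LinearMap.add_apply, map_smul, LinearMap.smul_apply, smul_eq_mul,
      hxy, hW1, hW2]
    ring
  refine ⟨r + 2, 0, 1, D.Q x, Φ, Or.inr (by omega), ⟨?_, ?_⟩, ?_, ?_⟩
  · rw [injective_iff_map_eq_zero]
    intro u hu
    have h0 : u.1 0 = 0 := by
      have := hBΦ u (Fin.cons 0 (Fin.cons 1 0), 0)
      rw [hu] at this
      simpa using this.symm
    have h1 : u.1 1 = 0 := by
      have := hBΦ u (Fin.cons 1 (Fin.cons 0 0), 0)
      rw [hu] at this
      simpa using this.symm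
    rw [hΦa, h0, h1, zero_smul, zero_smul, zero_add, zero_add] at hu
    have h2 : Ψ (fun i => u.1 i.succ.succ) = 0 := Subtype.ext hu
    have h3 : (fun i : Fin r => u.1 i.succ.succ) = 0 := hΨ.1 (by rw [h2, map_zero])
    refine Prod.ext ?_ (Subsingleton.elim _ _)
    funext i
    refine Fin.cases h0 (fun j => ?_) i
    refine Fin.cases h1 (fun j => ?_) j
    exact congrFun h3 j
  · intro v
    obtain ⟨a, ha⟩ := hΨ.2 ⟨_, D.orth_sub x y v hxy⟩
    refine ⟨(Fin.cons (D.B v y) (Fin.cons (D.B x v) a), 0), ?_⟩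
    rw [hΦa]
    have e1 : (Fin.cons (D.B v y) (Fin.cons (D.B x v) a : Fin (r + 1) → ZMod p) :
      Fin (r + 2) → ZMod p) 1 = D.B x v := rfl
    simp only [Fin.cons_zero, Fin.cons_succ, e1]
    rw [show (fun i : Fin r => a i) = a from rfl, ha]
    simp only
    abel
  · intro u v; rw [hBΦ]; simp [Bm, at']
  · intro u
    rw [hQΦ]
    have h := D.delta_sq (u.1 1)
    simp only [Qm, at', Finset.univ_eq_empty, Finset.sum_empty, mul_zero, add_zero, mul_one]
    simp only [Nat.zero_lt_succ, dite_true, Nat.one_lt_succ_succ]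
    have e0 : u.1 ⟨0, Nat.zero_lt_succ _⟩ = u.1 0 := rfl
    have e1 : u.1 ⟨1, Nat.one_lt_succ_succ _⟩ = u.1 1 := rfl
    rw [e0, e1]
    linear_combination -h

lemma hasParam_succ (e e' : V) (he : D.IsPlane e e') (h : (D.restrict (D.orth e e')).HasParam) :
    D.HasParam := by
  obtain ⟨s, m, t, q, Ψ, hts, hΨ, hΨB, hΨQ⟩ := h
  obtain ⟨hQ1, hQ2, hee⟩ := he
  have hee' : D.B e' e = -1 := by rw [D.skew, hee]
  set Φ : Mod p s (m + 1) →ₗ[ZMod p] V :=
    { toFun := fun u => u.2.1 0 • e + u.2.2 0 • e'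
        + (Ψ (u.1, (fun i => u.2.1 i.succ), (fun i => u.2.2 i.succ)) : V)
      map_add' := fun u v => by
        have : ((u + v).1, (fun i : Fin m => (u + v).2.1 i.succ), (fun i : Fin m => (u + v).2.2 i.succ))
          = ((u.1, (fun i => u.2.1 i.succ), (fun i => u.2.2 i.succ)) : Mod p s m)
            + (v.1, (fun i => v.2.1 i.succ), (fun i => v.2.2 i.succ)) := rfl
        rw [this, map_add]
        simp only [Prod.snd_add, Prod.fst_add, Pi.add_apply, add_smul, Submodule.coe_add]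
        abel
      map_smul' := fun c u => by
        have : ((c • u).1, (fun i : Fin m => (c • u).2.1 i.succ), (fun i : Fin m => (c • u).2.2 i.succ))
          = c • ((u.1, (fun i => u.2.1 i.succ), (fun i => u.2.2 i.succ)) : Mod p s m) := rfl
        rw [this, map_smul]
        simp [mul_smul] } with hΦ
  have hΦa : ∀ u, Φ u = u.2.1 0 • e + u.2.2 0 • e'
        + (Ψ (u.1, (fun i => u.2.1 i.succ), (fun i => u.2.2 i.succ)) : V) := fun u => rfl
  have hW1 : ∀ w : D.orth e e', D.B e w = 0 := fun w => ((D.mem_orth).1 w.2).1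
  have hW2 : ∀ w : D.orth e e', D.B e' w = 0 := fun w => ((D.mem_orth).1 w.2).2
  have hW3 : ∀ w : D.orth e e', D.B w e = 0 := fun w => by rw [D.skew, hW1, neg_zero]
  have hW4 : ∀ w : D.orth e e', D.B w e' = 0 := fun w => by rw [D.skew, hW2, neg_zero]
  have hBΦ : ∀ u v, D.B (Φ u) (Φ v) = u.2.1 0 * v.2.2 0 - u.2.2 0 * v.2.1 0
      + Bm t (u.1, (fun i => u.2.1 i.succ), (fun i => u.2.2 i.succ))
        (v.1, (fun i => v.2.1 i.succ), (fun i => v.2.2 i.succ)) := by
    intro u v
    rw [hΦa, hΦa, ← hΨB, restrict_B]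
    simp only [map_add, LinearMap.add_apply, map_smul, LinearMap.smul_apply, smul_eq_mul, D.alt,
      hee, hee', hW1, hW2, hW3, hW4]
    ring
  refine ⟨s, m + 1, t, q, Φ, hts, ⟨?_, ?_⟩, ?_, ?_⟩
  · rw [injective_iff_map_eq_zero]
    intro u hu
    have hB1 : ∀ v, D.B (Φ u) v = 0 := fun v => by rw [hu]; simp
    have h0 : u.2.1 0 = 0 := by
      have := hB1 e'
      rw [hΦa] at this
      simpa [D.alt, hee, hW4] using this
    have h1 : u.2.2 0 = 0 := by
      have := hB1 e
      rw [hΦa] at this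
      simpa [D.alt, hee', hW3] using this
    rw [hΦa, h0, h1, zero_smul, zero_smul, zero_add, zero_add] at hu
    have h2 : Ψ (u.1, (fun i => u.2.1 i.succ), (fun i => u.2.2 i.succ)) = 0 := Subtype.ext hu
    have h3 : ((u.1, (fun i => u.2.1 i.succ), (fun i => u.2.2 i.succ)) : Mod p s m) = 0 :=
      hΨ.1 (by rw [h2, map_zero])
    rw [Prod.mk_eq_zero, Prod.mk_eq_zero] at h3
    obtain ⟨h4, h5, h6⟩ := h3
    refine Prod.ext h4 (Prod.ext ?_ ?_)
    · funext i
      refine Fin.cases h0 (fun j => ?_) i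
      exact congrFun h5 j
    · funext i
      refine Fin.cases h1 (fun j => ?_) i
      exact congrFun h6 j
  · intro v
    obtain ⟨a, ha⟩ := hΨ.2 ⟨_, D.orth_sub e e' v hee⟩
    refine ⟨(a.1, Fin.cons (D.B v e') a.2.1, Fin.cons (D.B e v) a.2.2), ?_⟩
    rw [hΦa]
    simp only [Fin.cons_zero, Fin.cons_succ]
    have e1 : ((a.1, (fun i : Fin m => a.2.1 i), (fun i : Fin m => a.2.2 i)) : Mod p s m) = a := rfl
    rw [e1, ha]
    simp only
    abel
  · intro u v
    rw [hBΦ]
    simp only [Bm, Fin.sum_univ_succ]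
    ring
  · intro u
    rw [hΦa, D.add, D.add, D.Q_smul, D.Q_smul, hQ1, hQ2]
    have h1 : D.Q (Ψ (u.1, (fun i => u.2.1 i.succ), (fun i => u.2.2 i.succ)) : V)
        = Qm δ t q (u.1, (fun i => u.2.1 i.succ), (fun i => u.2.2 i.succ)) := hΨQ _
    rw [h1]
    simp only [map_add, LinearMap.add_apply, map_smul, LinearMap.smul_apply, smul_eq_mul,
      hee, hW1, hW2]
    simp only [Qm, Fin.sum_univ_succ]
    have h2 := D.delta_sq (u.2.1 0)
    have h3 := D.delta_sq (u.2.2 0)
    linear_combination -h2 - h3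

/-- if there is no standard plane, then there is a parametrisation -/
lemma hasParam_of_no_plane [Module.Finite (ZMod p) V] (hno : ∀ e e', ¬ D.IsPlane e e') :
    D.HasParam := by
  by_cases hB : ∀ u v, D.B u v = 0
  · by_cases hQ : ∀ v, D.Q v = 0
    · exact D.hasParam_zero hB hQ
    · push Not at hQ
      obtain ⟨x, hx⟩ := hQ
      exact D.hasParam_line hB x hx
  push Not at hB
  obtain ⟨u, v, huv⟩ := hB
  -- normalise
  obtain ⟨y, huy⟩ : ∃ y, D.B u y = 1 := ⟨(D.B u v)⁻¹ • v, by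
    rw [map_smul, smul_eq_mul, inv_mul_cancel₀ huv]⟩
  obtain ⟨a, b, hab, hb⟩ : ∃ a b, D.B a b = 1 ∧ D.Q b = δ := by
    rcases D.hδ with ⟨hp, hδ⟩ | ⟨hp, hδ⟩
    · subst hp
      have hyu : D.B y u = 1 := by
        rw [D.skew, huy]; rfl
      rcases zmod2_cases (D.Q y) with h1 | h1
      · rcases zmod2_cases (D.Q u) with h2 | h2
        · refine ⟨u, u + y, ?_, ?_⟩
          · rw [map_add, D.alt, huy, zero_add]
          · rw [D.add, h1, h2, huy]; ring
        · exact ⟨y, u, hyu, by rw [h2, hδ]⟩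
      · exact ⟨u, y, huy, by rw [h1, hδ]⟩
    · by_cases h1 : D.Q u = 0
      · refine ⟨-y, u, ?_, by rw [h1, hδ]⟩
        rw [map_neg, LinearMap.neg_apply, D.skew, huy, neg_neg]
      · refine ⟨u, y - (D.Q y / D.Q u) • u, ?_, ?_⟩
        · rw [map_sub, map_smul, D.alt, huy, smul_zero, sub_zero]
        · rw [sub_eq_add_neg, ← neg_smul, D.add, D.Q_smul]
          have h0 : ∀ x, δ * x = 0 := fun x => by rw [hδ, zero_mul]
          rw [h0, neg_mul, div_mul_cancel₀ _ h1, add_neg_cancel, zero_add]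
          exact hδ.symm
  have hba : D.B b a = -1 := by rw [D.skew, hab]
  have hQ0 : ∀ w ∈ D.orth a b, D.Q w = 0 := by
    intro w hw
    rw [D.mem_orth] at hw
    by_contra hQw
    have hwb : D.B w b = 0 := by rw [D.skew, hw.2, neg_zero]
    obtain ⟨c, hc⟩ : ∃ c, D.Q (a + c • w) = δ := by
      refine ⟨(δ - D.Q a) / D.Q w, ?_⟩
      rw [D.add, D.Q_smul, map_smul, hw.1, smul_zero, mul_zero]
      field_simp
      ring
    exact hno (a + c • w) b ⟨hc, hb, by
      rw [map_add, LinearMap.add_apply, map_smul, LinearMap.smul_apply, hwb, hab, smul_zero,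
        add_zero]⟩
  refine D.hasParam_two a b hab hb ?_ hQ0
  intro w hw w' hw'
  rcases D.hδ with ⟨hp, hδ⟩ | ⟨hp, hδ⟩
  · have h1 := D.add w w'
    rw [hQ0 _ (Submodule.add_mem _ hw hw'), hQ0 _ hw, hQ0 _ hw'] at h1
    have h2 : δ ≠ 0 := by rw [hδ]; exact one_ne_zero
    have h3 : δ * D.B w w' = 0 := by linear_combination -h1
    exact (mul_eq_zero.1 h3).resolve_left h2
  · by_contra hne
    refine hno w ((D.B w w')⁻¹ • w') ⟨?_, ?_, ?_⟩
    · rw [hQ0 _ hw, hδ]
    · rw [D.Q_smul, hQ0 _ hw', mul_zero]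
      exact hδ.symm
    · rw [map_smul, smul_eq_mul, inv_mul_cancel₀ hne]

end Pair

/-- every pair has a parametrisation by a model -/
theorem hasParam {δ : ZMod p} : ∀ (n : ℕ) (V : Type) [AddCommGroup V] [Module (ZMod p) V]
    [Module.Finite (ZMod p) V] (D : Pair p V δ), Module.finrank (ZMod p) V < n → D.HasParam := by
  intro n
  induction n with
  | zero => intro V _ _ _ D h; exact absurd h (Nat.not_lt_zero _)
  | succ n ih =>
    intro V _ _ _ D h
    by_cases hno : ∀ e e', ¬ D.IsPlane e e'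
    · exact D.hasParam_of_no_plane hno
    push Not at hno
    obtain ⟨e, e', he⟩ := hno
    apply D.hasParam_succ e e' he
    apply ih
    have hlt : D.orth e e' ≠ ⊤ := by
      intro htop
      have h1 : e' ∈ D.orth e e' := by rw [htop]; exact Submodule.mem_top
      rw [D.mem_orth] at h1
      have h2 := he.2.2
      rw [h1.1] at h2
      exact zero_ne_one h2
    have := Submodule.finrank_lt hlt
    omega

end

end Pool.Agent.Helper50.AS
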