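import Mathlib
import Pool.Agent.Helper50.AS.Gen
import Pool.Agent.Helper50.AS.Param

/-!
# Isometries of the models which are realised by Frobenius
-/

set_option autoImplicit false

open Polynomial

namespace Pool.Agent.Helper50.AS

variable {k : Type} [Field k] (p : ℕ) [Fact p.Prime] [CharP k p]

/-- the additive map `x ↦ x^p - x` -/
def wpm (x : k) : k := x ^ p - x

lemma wpm_add (x y : k) : wpm p (x + y) = wpm p x + wpm p y := by
  simp only [wpm, add_pow_char]; ring

lemma wpm_zero : wpm p (0 : k) = 0 := by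
  have hp : p ≠ 0 := (Fact.out : p.Prime).ne_zero
  simp [wpm, hp]

lemma wpm_smul (c : ZMod p) (x : k) :
    wpm p (ZMod.castHom (dvd_refl p) k c * x) = ZMod.castHom (dvd_refl p) k c * wpm p x := by
  have h : (ZMod.castHom (dvd_refl p) k c) ^ p = ZMod.castHom (dvd_refl p) k c := by
    rw [← map_pow, ZMod.pow_card]
  simp only [wpm, mul_pow, h]; ring

lemma wpm_sum {ι : Type*} (s : Finset ι) (a : ι → ZMod p) (x : ι → k) :
    wpm p (∑ i ∈ s, ZMod.castHom (dvd_refl p) k (a i) * x i)
      = ∑ i ∈ s, ZMod.castHom (dvd_refl p) k (a i) * wpm p (x i) := by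
  classical
  induction s using Finset.induction_on with
  | empty => simp [wpm_zero]
  | insert i s hi ih => rw [Finset.sum_insert hi, Finset.sum_insert hi, wpm_add, ih, wpm_smul]

/-- a tower of Artin-Schreier roots -/
lemma exists_tower (k : Type) [Field k] [IsAlgClosed k] [CharP k p] :
    ∃ tt : ℕ → k, tt 0 = 1 ∧ ∀ n, wpm p (tt (n + 1)) = tt n := by
  have h : ∀ c : k, ∃ x : k, wpm p x = c := fun c => exists_AS_root p c
  choose r hr using h
  refine ⟨fun n => Nat.rec 1 (fun _ x => r x) n, rfl, fun n => hr _⟩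

section tower

variable {tt : ℕ → k} (h0 : tt 0 = 1) (hs : ∀ n, wpm p (tt (n + 1)) = tt n)

include h0 hs

lemma tower_wpm_sum (n : ℕ) (a : ℕ → ZMod p) :
    wpm p (∑ i ∈ Finset.range (n + 1), ZMod.castHom (dvd_refl p) k (a i) * tt i)
      = ∑ i ∈ Finset.range n, ZMod.castHom (dvd_refl p) k (a (i + 1)) * tt i := by
  have h1 : wpm p (1 : k) = 0 := by simp [wpm]
  rw [wpm_sum, Finset.sum_range_succ']
  simp only [hs, h0, h1, mul_zero, add_zero]

lemma tower_indep : ∀ (n : ℕ) (a : ℕ → ZMod p),
    ∑ i ∈ Finset.range n, ZMod.castHom (dvd_refl p) k (a i) * tt i = 0 → ∀ i < n, a i = 0 := by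
  intro n
  induction n with
  | zero => intro a _ i hi; exact absurd hi (Nat.not_lt_zero _)
  | succ n ih =>
    intro a ha
    have h1 := tower_wpm_sum p h0 hs n a
    rw [ha, wpm_zero] at h1
    have h2 := ih (fun i => a (i + 1)) h1.symm
    have h3 : a 0 = 0 := by
      rw [Finset.sum_range_succ'] at ha
      rw [Finset.sum_eq_zero (fun i hi => by rw [h2 i (Finset.mem_range.1 hi), map_zero, zero_mul]),
        zero_add, h0, mul_one] at ha
      exact (ZMod.castHom (dvd_refl p) k).injective (by rw [ha, map_zero])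
    intro i hi
    cases i with
    | zero => exact h3
    | succ i => exact h2 i (by omega)

lemma tower_nilp : ∀ (n : ℕ) (a : ℕ → ZMod p),
    (wpm p)^[n] (∑ i ∈ Finset.range n, ZMod.castHom (dvd_refl p) k (a i) * tt i) = 0 := by
  intro n
  induction n with
  | zero => intro a; simp
  | succ n ih =>
    intro a
    rw [Function.iterate_succ_apply, tower_wpm_sum p h0 hs]
    exact ih _

end tower

lemma cast_pow_char (c : ZMod p) :
    (ZMod.castHom (dvd_refl p) k c) ^ p = ZMod.castHom (dvd_refl p) k c := by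
  rw [← map_pow, ZMod.pow_card]

/-- the unipotent part -/
lemma exists_unipotent (k : Type) [Field k] [IsAlgClosed k] [CharP k p] (s : ℕ) :
    ∃ (φ : (Fin s → ZMod p) →ₗ[ZMod p] (Fin s → ZMod p)) (ι : (Fin s → ZMod p) →+ k),
      Function.Injective ι ∧ (∀ a, ι (φ a) = ι a ^ p) ∧
      (∃ n, ∀ a, (wpm p)^[n] (ι a) = 0) ∧
      (∀ a, at' (φ a) 0 = at' a 0) ∧ (2 ≤ s → ∀ a, at' (φ a) 1 = at' a 1 + at' a 0) := by
  obtain ⟨tt, h0, hs⟩ := exists_tower p k
  cases s with
  | zero =>
    refine ⟨0, 0, fun a b _ => Subsingleton.elim _ _, ?_, ⟨0, fun a => by simp⟩, ?_, ?_⟩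
    · intro a
      have hp : p ≠ 0 := (Fact.out : p.Prime).ne_zero
      simp [hp]
    · intro a; simp [at']
    · intro h; omega
  | succ s =>
    set φ : (Fin (s + 1) → ZMod p) →ₗ[ZMod p] (Fin (s + 1) → ZMod p) :=
      { toFun := fun a => a + Fin.cons 0 (fun j : Fin s => a j.castSucc)
        map_add' := fun a b => by
          funext i
          refine Fin.cases ?_ (fun j => ?_) i
          · simp
          · simp; ring
        map_smul' := fun c a => by
          funext i
          refine Fin.cases ?_ (fun j => ?_) i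
          · simp
          · simp; ring } with hφ
    have hφa : ∀ a, φ a = a + Fin.cons 0 (fun j : Fin s => a j.castSucc) := fun a => rfl
    set ι : (Fin (s + 1) → ZMod p) →+ k :=
      { toFun := fun a => ∑ i : Fin (s + 1), ZMod.castHom (dvd_refl p) k (a i) * tt (s - i)
        map_zero' := by simp
        map_add' := fun a b => by
          simp only [Pi.add_apply, map_add, add_mul, Finset.sum_add_distrib] } with hι
    have hιa : ∀ a, ι a = ∑ i : Fin (s + 1), ZMod.castHom (dvd_refl p) k (a i) * tt (s - i) :=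
      fun a => rfl
    have hιr : ∀ a : Fin (s + 1) → ZMod p, ι a = ∑ i ∈ Finset.range (s + 1),
        ZMod.castHom (dvd_refl p) k (at' a (s - i)) * tt i := by
      intro a
      rw [hιa, ← Fin.sum_univ_eq_sum_range
        (fun i => ZMod.castHom (dvd_refl p) k (at' a (s - i)) * tt i) (s + 1),
        ← Equiv.sum_comp Fin.revPerm]
      apply Finset.sum_congr rfl
      intro i _
      have h1 : (Fin.revPerm i : Fin (s + 1)) = ⟨s - i, by omega⟩ := by
        ext; simp [Fin.val_rev]
      have h2 : s - (s - (i : ℕ)) = i := by have := i.2; omega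
      have h3 : at' a (s - (i : ℕ)) = a ⟨s - i, by omega⟩ := by
        unfold at'; rw [dif_pos]
      rw [h1, h3]
      simp only [h2]
    refine ⟨φ, ι, ?_, ?_, ⟨s + 1, ?_⟩, ?_, ?_⟩
    · rw [injective_iff_map_eq_zero]
      intro a ha
      rw [hιr] at ha
      have h1 := tower_indep p h0 hs (s + 1) _ ha
      funext i
      have h2 := h1 (s - i) (by omega)
      have h3 : s - (s - (i : ℕ)) = i := by have := i.2; omega
      rw [h3] at h2
      unfold at' at h2
      rw [dif_pos i.2] at h2
      exact h2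
    · intro a
      have h1 : ι (φ a) = ι a + ∑ j : Fin s, ZMod.castHom (dvd_refl p) k (a j.castSucc) * tt (s - (j + 1)) := by
        rw [hφa, map_add]
        congr 1
        rw [hιa, Fin.sum_univ_succ]
        simp
      have h2 : ι a ^ p = ι a + wpm p (ι a) := by unfold wpm; ring
      rw [h1, h2]
      congr 1
      rw [hιa, wpm_sum, Fin.sum_univ_castSucc]
      have h3 : wpm p (tt (s - ((Fin.last s : Fin (s + 1)) : ℕ))) = 0 := by
        simp [h0, wpm]
      rw [h3, mul_zero, add_zero]
      apply Finset.sum_congr rfl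
      intro j _
      congr 1
      have h4 : s - ((j.castSucc : Fin (s + 1)) : ℕ) = (s - (j + 1)) + 1 := by
        have := j.2
        simp only [Fin.val_castSucc]
        omega
      rw [h4, hs]
    · intro a
      rw [hιr]
      exact tower_nilp p h0 hs (s + 1) _
    · intro a
      simp [at', hφa]
    · intro h2 a
      obtain ⟨r, rfl⟩ : ∃ r, s = r + 1 := ⟨s - 1, by omega⟩
      have e1 : at' (φ a) 1 = φ a 1 := by simp [at']
      have e2 : at' a 1 = a 1 := by simp [at']
      have e3 : at' a 0 = a 0 := by simp [at']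
      rw [e1, e2, e3, hφa]
      simp only [Pi.add_apply]
      congr 1

/-- the part with the planes -/
lemma exists_planes (k : Type) [Field k] [IsAlgClosed k] [CharP k p] (m : ℕ) :
    ∃ (φ : ((Fin m → ZMod p) × (Fin m → ZMod p)) →ₗ[ZMod p] ((Fin m → ZMod p) × (Fin m → ZMod p)))
      (ι : ((Fin m → ZMod p) × (Fin m → ZMod p)) →+ k),
      Function.Injective ι ∧ (∀ w, ι (φ w) = ι w ^ p) ∧ (∀ w, uu p m (ι w) = 0) ∧
      (∀ u v : (Fin m → ZMod p) × (Fin m → ZMod p),
        ∑ j, ((φ u).1 j * (φ v).2 j - (φ u).2 j * (φ v).1 j)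
          = ∑ j, (u.1 j * v.2 j - u.2 j * v.1 j)) ∧
      (∀ u : (Fin m → ZMod p) × (Fin m → ZMod p),
        ∑ j, ((φ u).1 j ^ 2 + (φ u).1 j * (φ u).2 j + (φ u).2 j ^ 2)
          = ∑ j, (u.1 j ^ 2 + u.1 j * u.2 j + u.2 j ^ 2)) := by
  cases m with
  | zero =>
    refine ⟨0, 0, fun a b _ => Subsingleton.elim _ _, ?_, ?_, ?_, ?_⟩
    · intro a
      have hp : p ≠ 0 := (Fact.out : p.Prime).ne_zero
      simp [hp]
    · intro w; simp [uu]
    · intro u v; simp
    · intro u; simp
  | succ m =>
    obtain ⟨α, hα, hind⟩ := exists_generator (k := k) p (m + 1) (Nat.succ_pos m)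
    set c := ZMod.castHom (dvd_refl p) k with hc
    have hαrel : α ^ p ^ (2 * (m + 1)) = α ^ p ^ (m + 1) - α := by
      have := hα
      unfold uu at this
      linear_combination this
    set φ : ((Fin (m + 1) → ZMod p) × (Fin (m + 1) → ZMod p)) →ₗ[ZMod p]
        ((Fin (m + 1) → ZMod p) × (Fin (m + 1) → ZMod p)) :=
      { toFun := fun w => (Fin.cons (- w.2 (Fin.last m)) (fun j : Fin m => w.1 j.castSucc),
          Fin.cons (w.1 (Fin.last m) + w.2 (Fin.last m)) (fun j : Fin m => w.2 j.castSucc))
        map_add' := fun a b => by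
          refine Prod.ext ?_ ?_ <;> funext i <;> refine Fin.cases ?_ (fun j => ?_) i <;>
            simp <;> try ring
        map_smul' := fun a b => by
          refine Prod.ext ?_ ?_ <;> funext i <;> refine Fin.cases ?_ (fun j => ?_) i <;>
            simp <;> try ring } with hφ
    have hφ1 : ∀ w, (φ w).1 = Fin.cons (- w.2 (Fin.last m)) (fun j : Fin m => w.1 j.castSucc) :=
      fun w => rfl
    have hφ2 : ∀ w, (φ w).2 = Fin.cons (w.1 (Fin.last m) + w.2 (Fin.last m))
        (fun j : Fin m => w.2 j.castSucc) := fun w => rfl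
    set ι : ((Fin (m + 1) → ZMod p) × (Fin (m + 1) → ZMod p)) →+ k :=
      { toFun := fun w => ∑ j : Fin (m + 1), c (w.1 j) * α ^ p ^ (j : ℕ)
          + ∑ j : Fin (m + 1), c (w.2 j) * α ^ p ^ (m + 1 + (j : ℕ))
        map_zero' := by simp
        map_add' := fun a b => by
          simp only [Prod.fst_add, Prod.snd_add, Pi.add_apply, map_add, add_mul,
            Finset.sum_add_distrib]
          ring } with hι
    have hιa : ∀ w, ι w = ∑ j : Fin (m + 1), c (w.1 j) * α ^ p ^ (j : ℕ)
          + ∑ j : Fin (m + 1), c (w.2 j) * α ^ p ^ (m + 1 + (j : ℕ)) := fun w => rfl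
    refine ⟨φ, ι, ?_, ?_, ?_, ?_, ?_⟩
    · rw [injective_iff_map_eq_zero]
      intro w hw
      -- combine into one relation
      set a : ℕ → ZMod p := fun i => if i < m + 1 then at' w.1 i else at' w.2 (i - (m + 1)) with ha
      have h1 : ∑ i ∈ Finset.range (2 * (m + 1)), c (a i) * α ^ p ^ i = ι w := by
        rw [show 2 * (m + 1) = (m + 1) + (m + 1) by ring, Finset.sum_range_add, hιa]
        congr 1
        · rw [← Fin.sum_univ_eq_sum_range (fun i => c (a i) * α ^ p ^ i) (m + 1)]
          apply Finset.sum_congr rfl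
          intro j _
          simp only [ha]
          rw [if_pos j.2, at', dif_pos j.2]
        · rw [← Fin.sum_univ_eq_sum_range (fun i => c (a (m + 1 + i)) * α ^ p ^ (m + 1 + i)) (m + 1)]
          apply Finset.sum_congr rfl
          intro j _
          simp only [ha]
          rw [if_neg (by omega), Nat.add_sub_cancel_left, at', dif_pos j.2]
      have h2 := hind a (by rw [h1, hw])
      refine Prod.ext ?_ ?_
      · funext j
        have h3 := h2 j (by omega)
        simp only [ha] at h3
        rw [if_pos j.2, at', dif_pos j.2] at h3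
        exact h3
      · funext j
        have h3 := h2 (m + 1 + j) (by omega)
        simp only [ha] at h3
        rw [if_neg (by omega), Nat.add_sub_cancel_left, at', dif_pos j.2] at h3
        exact h3
    · intro w
      have hpw : ∀ (x : ZMod p) (n : ℕ), (c x * α ^ p ^ n) ^ p = c x * α ^ p ^ (n + 1) := by
        intro x n
        rw [mul_pow, hc, cast_pow_char, ← pow_mul, ← pow_succ]
      have h1 : ι w ^ p = ∑ j : Fin (m + 1), c (w.1 j) * α ^ p ^ ((j : ℕ) + 1)
          + ∑ j : Fin (m + 1), c (w.2 j) * α ^ p ^ (m + 1 + (j : ℕ) + 1) := by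
        rw [hιa, add_pow_char, sum_pow_char, sum_pow_char]
        simp only [hpw]
      rw [h1, hιa, hφ1, hφ2]
      rw [Fin.sum_univ_succ, Fin.sum_univ_succ (n := m)]
      conv_rhs => rw [Fin.sum_univ_castSucc, Fin.sum_univ_castSucc (n := m)]
      simp only [Fin.cons_zero, Fin.cons_succ, Fin.val_zero, Fin.val_succ, Fin.val_castSucc,
        Fin.val_last, pow_zero, pow_one, add_zero, map_neg, map_add]
      have h2 : α ^ p ^ (m + 1 + m + 1) = α ^ p ^ (m + 1) - α := by
        rw [← hαrel]; congr 2; ring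
      rw [h2]
      have h3 : ∑ x : Fin m, c (w.2 x.castSucc) * α ^ p ^ (m + 1 + ((x : ℕ) + 1))
          = ∑ x : Fin m, c (w.2 x.castSucc) * α ^ p ^ (m + 1 + (x : ℕ) + 1) := rfl
      rw [h3]
      ring
    · intro w
      have hz : ∀ (x : ZMod p) (n : ℕ), uu p (m + 1) (c x * α ^ p ^ n) = 0 := by
        intro x n
        rw [hc, uu_smul]
        have : uu p (m + 1) (α ^ p ^ n) = 0 := by
          induction n with
          | zero => simpa using hα
          | succ n ih =>
            rw [pow_succ, pow_mul, uu_pow, ih, zero_pow (Fact.out : p.Prime).ne_zero]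
        rw [this, mul_zero]
      have h0 : uu p (m + 1) (0 : k) = 0 := by
        have := hz 0 0
        simpa using this
      have hsum : ∀ (s : Finset (Fin (m + 1))) (x : Fin (m + 1) → ZMod p) (n : Fin (m + 1) → ℕ),
          uu p (m + 1) (∑ j ∈ s, c (x j) * α ^ p ^ (n j)) = 0 := by
        intro s x n
        classical
        induction s using Finset.induction_on with
        | empty => simpa using h0
        | insert i s hi ih => rw [Finset.sum_insert hi, uu_add, ih, hz, add_zero]
      rw [hιa, uu_add, hsum, hsum, add_zero]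
    · intro u v
      rw [Fin.sum_univ_succ]
      conv_rhs => rw [Fin.sum_univ_castSucc]
      simp only [hφ1, hφ2, Fin.cons_zero, Fin.cons_succ]
      ring
    · intro u
      rw [Fin.sum_univ_succ]
      conv_rhs => rw [Fin.sum_univ_castSucc]
      simp only [hφ1, hφ2, Fin.cons_zero, Fin.cons_succ]
      ring

/-- the two parts meet only in zero -/
lemma inter_zero (m : ℕ) : ∀ (n : ℕ) (x : k), uu p m x = 0 → (wpm p)^[n] x = 0 → x = 0 := by
  intro n
  induction n with
  | zero => intro x _ h; exact h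
  | succ n ih =>
    intro x hx hn
    rw [Function.iterate_succ_apply] at hn
    have h1 : uu p m (wpm p x) = 0 := by
      have h2 := uu_add p m (wpm p x) x
      have h3 : wpm p x + x = x ^ p := by unfold wpm; ring
      rw [h3, uu_pow, hx, zero_pow (Fact.out : p.Prime).ne_zero, add_zero] at h2
      exact h2.symm
    have h2 := ih _ h1 hn
    have h3 : x ^ p = x := by
      unfold wpm at h2
      exact sub_eq_zero.1 h2
    have h4 : ∀ n, x ^ p ^ n = x := by
      intro n
      induction n with
      | zero => simp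
      | succ n ih' => rw [pow_succ, pow_mul, ih', h3]
    unfold uu at hx
    rw [h4, h4] at hx
    linear_combination hx

/-- every pair `(B, Q)` admits an isometry realised by Frobenius on a subspace of `k` -/
theorem exists_isometry (k : Type) [Field k] [IsAlgClosed k] [CharP k p] {δ : ZMod p}
    (V : Type) [AddCommGroup V] [Module (ZMod p) V] [Module.Finite (ZMod p) V]
    (D : Pair p V δ) :
    ∃ (φ : V ≃+ V) (ι : V →+ k), (∀ u v, D.B (φ u) (φ v) = D.B u v) ∧
      (∀ u, D.Q (φ u) = D.Q u) ∧ Function.Injective ι ∧ ∀ v, ι (φ v) = ι v ^ p := by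
  have hp0 : p ≠ 0 := (Fact.out : p.Prime).ne_zero
  obtain ⟨s, m, t, q, Φ, hts, hΦ, hB, hQ⟩ := hasParam (Module.finrank (ZMod p) V + 1) V D
    (Nat.lt_succ_self _)
  obtain ⟨φ1, ι1, hι1, hF1, ⟨n, hn⟩, h10, h11⟩ := exists_unipotent p k s
  obtain ⟨φ2, ι2, hι2, hF2, hU2, hB2, hQ2⟩ := exists_planes p k m
  set e : Mod p s m ≃ₗ[ZMod p] V := LinearEquiv.ofBijective Φ hΦ with he
  have heΦ : ∀ u, e u = Φ u := fun u => rfl
  -- the maps on the model
  set ψ : Mod p s m →ₗ[ZMod p] Mod p s m := φ1.prodMap φ2 with hψ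
  set κ : Mod p s m →+ k :=
    { toFun := fun u => ι1 u.1 + ι2 u.2
      map_zero' := by simp
      map_add' := fun u v => by simp only [Prod.fst_add, Prod.snd_add, map_add]; ring } with hκ
  have hκa : ∀ u, κ u = ι1 u.1 + ι2 u.2 := fun u => rfl
  have hψ1 : ∀ u, (ψ u).1 = φ1 u.1 := fun u => rfl
  have hψ2 : ∀ u, (ψ u).2 = φ2 u.2 := fun u => rfl
  have hκinj : Function.Injective κ := by
    rw [injective_iff_map_eq_zero]
    intro u hu
    rw [hκa] at hu
    have h1 : ι1 u.1 = - ι2 u.2 := eq_neg_of_add_eq_zero_left hu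
    have h2 : uu p m (ι1 u.1) = 0 := by
      rw [h1, ← map_neg]
      exact hU2 _
    have h3 := inter_zero p m n _ h2 (hn _)
    have h4 : u.1 = 0 := hι1 (by rw [h3, map_zero])
    rw [h3, zero_add] at hu
    have h5 : u.2 = 0 := hι2 (by rw [hu, map_zero])
    exact Prod.ext h4 h5
  have hκF : ∀ u, κ (ψ u) = κ u ^ p := by
    intro u
    rw [hκa, hκa, hψ1, hψ2, hF1, hF2, add_pow_char]
  have hψinj : Function.Injective ψ := by
    rw [injective_iff_map_eq_zero]
    intro u hu
    have h1 := hκF u
    rw [hu, map_zero] at h1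
    have h2 : κ u = 0 := by
      have := h1.symm
      exact pow_eq_zero_iff hp0 |>.1 this
    exact hκinj (by rw [h2, map_zero])
  set ψe : Mod p s m ≃ₗ[ZMod p] Mod p s m := LinearEquiv.ofInjectiveEndo ψ hψinj with hψe
  have hψea : ∀ u, ψe u = ψ u := fun u => rfl
  have hBm : ∀ u v : Mod p s m, Bm t (ψ u) (ψ v) = Bm t u v := by
    intro u v
    unfold Bm
    simp only [hψ1, hψ2, hB2, h10]
    rcases hts with rfl | hs
    · ring
    · rw [h11 hs, h11 hs]; ring
  have hQm : ∀ u : Mod p s m, Qm δ t q (ψ u) = Qm δ t q u := by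
    intro u
    unfold Qm
    simp only [hψ1, hψ2, hQ2, h10]
    rcases hts with rfl | hs
    · ring
    · rw [h11 hs]
      have h2 := D.two_delta
      linear_combination (t * (at' u.1 0 * at' u.1 1 + at' u.1 0 ^ 2)) * h2
  set E : V ≃+ V := ((e.symm.trans ψe).trans e).toAddEquiv with hE
  have hEa : ∀ v, E (e v) = e (ψ v) := by
    intro v
    have h1 : E (e v) = e (ψe (e.symm (e v))) := rfl
    rw [h1, e.symm_apply_apply, hψea]
  set ι : V →+ k := κ.comp e.symm.toAddEquiv.toAddMonoidHom with hι
  have hιa : ∀ v, ι (e v) = κ v := by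
    intro v
    have h1 : ι (e v) = κ (e.symm (e v)) := rfl
    rw [h1, e.symm_apply_apply]
  refine ⟨E, ι, ?_, ?_, ?_, ?_⟩
  · intro u v
    obtain ⟨u, rfl⟩ := e.surjective u
    obtain ⟨v, rfl⟩ := e.surjective v
    rw [hEa, hEa, heΦ, heΦ, heΦ, heΦ, hB, hB, hBm]
  · intro u
    obtain ⟨u, rfl⟩ := e.surjective u
    rw [hEa, heΦ, heΦ, hQ, hQ, hQm]
  · intro u v h
    obtain ⟨u, rfl⟩ := e.surjective u
    obtain ⟨v, rfl⟩ := e.surjective v
    rw [hιa, hιa] at h
    rw [hκinj h]
  · intro v
    obtain ⟨v, rfl⟩ := e.surjective v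
    rw [hEa, hιa, hιa, hκF]

end Pool.Agent.Helper50.AS
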