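import Mathlib
import Pool.Agent.Helper50.AS.Iso
import Pool.Agent.Helper94.AS.Lift

/-!
# The alternating form and the power map of a central extension of an elementary abelian group
-/

set_option autoImplicit false

namespace Pool.Agent.Helper50.AS

lemma zmod2_one_eq : (1 : ZMod 2) = -1 := by decide

/-- the data extracted from an extension of an elementary abelian group by `ZMod p` -/
structure Ext (p : ℕ) (G : Type) [Group G] (V : Type) [AddCommGroup V] where
  π : G → V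
  ζ : G → ZMod p
  hπ : ∀ g h, π (g * h) = π g + π h
  hsurj : Function.Surjective π
  hcent : ∀ z g, π z = 0 → z * g = g * z
  hζ : ∀ x y, π x = 0 → π y = 0 → ζ (x * y) = ζ x + ζ y
  hinj : ∀ x, π x = 0 → ζ x = 0 → x = 1
  hζs : ∃ z, π z = 0 ∧ ζ z = 1

namespace Ext

variable {p : ℕ} {G : Type} [Group G] {V : Type} [AddCommGroup V] (E : Ext p G V)

lemma pi_one : E.π 1 = 0 := by
  have h := E.hπ 1 1
  rw [mul_one] at h
  simpa using h

lemma pi_inv (g : G) : E.π g⁻¹ = - E.π g := by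
  have h := E.hπ g⁻¹ g
  rw [inv_mul_cancel, E.pi_one] at h
  exact eq_neg_of_add_eq_zero_left h.symm

lemma pi_pow (g : G) (n : ℕ) : E.π (g ^ n) = n • E.π g := by
  induction n with
  | zero => simp [E.pi_one]
  | succ n ih => rw [pow_succ, E.hπ, ih, succ_nsmul]

lemma zeta_one : E.ζ 1 = 0 := by
  have h := E.hζ 1 1 E.pi_one E.pi_one
  rw [mul_one] at h
  simpa using h

lemma zeta_pow (z : G) (hz : E.π z = 0) (n : ℕ) : E.ζ (z ^ n) = n * E.ζ z := by
  induction n with
  | zero => simp [E.zeta_one]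
  | succ n ih =>
    rw [pow_succ, E.hζ _ _ (by rw [E.pi_pow, hz, smul_zero]) hz, ih]
    push_cast; ring

lemma zeta_inj (x y : G) (hx : E.π x = 0) (hy : E.π y = 0) (h : E.ζ x = E.ζ y) : x = y := by
  have h1 : E.π (x * y⁻¹) = 0 := by rw [E.hπ, E.pi_inv, hx, hy]; simp
  have hy' : E.π y⁻¹ = 0 := by rw [E.pi_inv, hy]; simp
  have h2 : E.ζ (x * y⁻¹) = 0 := by
    have h3 := E.hζ (x * y⁻¹) y h1 hy
    rw [inv_mul_cancel_right, h] at h3
    simpa using h3
  have h3 := E.hinj _ h1 h2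
  exact mul_inv_eq_one.1 h3

lemma pi_comm (g h : G) : E.π (g * h * g⁻¹ * h⁻¹) = 0 := by
  simp only [E.hπ, E.pi_inv]; abel

/-- the commutator form on `G` -/
def b (g h : G) : ZMod p := E.ζ (g * h * g⁻¹ * h⁻¹)

lemma b_mul_left (g g' h : G) : E.b (g * g') h = E.b g h + E.b g' h := by
  unfold b
  rw [add_comm, ← E.hζ _ _ (E.pi_comm _ _) (E.pi_comm _ _)]
  congr 1
  have hc := E.hcent (g' * h * g'⁻¹ * h⁻¹) g (E.pi_comm _ _)
  calc g * g' * h * (g * g')⁻¹ * h⁻¹ = g * (g' * h * g'⁻¹ * h⁻¹) * (h * g⁻¹ * h⁻¹) := by group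
    _ = (g' * h * g'⁻¹ * h⁻¹) * g * (h * g⁻¹ * h⁻¹) := by rw [hc]
    _ = _ := by group

lemma b_swap (g h : G) : E.b h g = - E.b g h := by
  unfold b
  have h1 := E.hζ (h * g * h⁻¹ * g⁻¹) (g * h * g⁻¹ * h⁻¹) (E.pi_comm _ _) (E.pi_comm _ _)
  have h2 : (h * g * h⁻¹ * g⁻¹) * (g * h * g⁻¹ * h⁻¹) = 1 := by group
  rw [h2, E.zeta_one] at h1
  exact eq_neg_of_add_eq_zero_left h1.symm

lemma b_mul_right (g h h' : G) : E.b g (h * h') = E.b g h + E.b g h' := by
  rw [E.b_swap, E.b_mul_left, E.b_swap g h, E.b_swap g h']; ring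

lemma b_self (g : G) : E.b g g = 0 := by
  unfold b
  have : g * g * g⁻¹ * g⁻¹ = 1 := by group
  rw [this, E.zeta_one]

lemma b_ker_left (z g : G) (hz : E.π z = 0) : E.b z g = 0 := by
  unfold b
  rw [E.hcent z g hz]
  have : g * z * z⁻¹ * g⁻¹ = 1 := by group
  rw [this, E.zeta_one]

lemma b_congr_left (g g' h : G) (hg : E.π g = E.π g') : E.b g h = E.b g' h := by
  have h1 : g = g' * (g'⁻¹ * g) := by group
  have h2 : E.π (g'⁻¹ * g) = 0 := by rw [E.hπ, E.pi_inv, hg]; simp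
  rw [h1, E.b_mul_left, E.b_ker_left _ _ h2, add_zero]

lemma b_congr (g g' h h' : G) (hg : E.π g = E.π g') (hh : E.π h = E.π h') :
    E.b g h = E.b g' h' := by
  rw [E.b_congr_left g g' h hg, E.b_swap, E.b_congr_left h h' g' hh, E.b_swap h' g']

include E in
lemma mul_pow' (g h : G) (m : ℕ) :
    (g * h) ^ m = (h * g * h⁻¹ * g⁻¹) ^ (m.choose 2) * (g ^ m * h ^ m) := by
  obtain ⟨c, hc⟩ : ∃ c, c = h * g * h⁻¹ * g⁻¹ := ⟨_, rfl⟩
  rw [← hc]
  have hcc : ∀ x, c * x = x * c := fun x => E.hcent c x (by rw [hc]; exact E.pi_comm _ _)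
  have hcomm : ∀ x (n : ℕ), c ^ n * x = x * c ^ n := fun x n =>
    (Commute.pow_left (hcc x : Commute c x) n)
  have h1 : ∀ n : ℕ, h ^ n * g = c ^ n * (g * h ^ n) := by
    intro n
    induction n with
    | zero => simp
    | succ n ih =>
      have h2 : h * g = c * (g * h) := by rw [hc]; group
      calc h ^ (n + 1) * g = h ^ n * (h * g) := by rw [pow_succ, mul_assoc]
        _ = h ^ n * (c * (g * h)) := by rw [h2]
        _ = (h ^ n * c) * (g * h) := by rw [mul_assoc]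
        _ = (c * h ^ n) * (g * h) := by rw [hcc]
        _ = c * ((h ^ n * g) * h) := by simp only [mul_assoc]
        _ = c * ((c ^ n * (g * h ^ n)) * h) := by rw [ih]
        _ = (c * c ^ n) * (g * (h ^ n * h)) := by simp only [mul_assoc]
        _ = c ^ (n + 1) * (g * h ^ (n + 1)) := by rw [← pow_succ', ← pow_succ]
  induction m with
  | zero => simp
  | succ m ih =>
    have hch : (m + 1).choose 2 = m.choose 2 + m := by
      rw [Nat.choose_succ_succ' m 1, Nat.choose_one_right, add_comm]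
    calc (g * h) ^ (m + 1) = (g * h) ^ m * (g * h) := pow_succ _ _
      _ = c ^ (m.choose 2) * (g ^ m * h ^ m) * (g * h) := by rw [ih]
      _ = c ^ (m.choose 2) * (g ^ m * ((h ^ m * g) * h)) := by simp only [mul_assoc]
      _ = c ^ (m.choose 2) * (g ^ m * ((c ^ m * (g * h ^ m)) * h)) := by rw [h1]
      _ = c ^ (m.choose 2) * ((g ^ m * c ^ m) * (g * (h ^ m * h))) := by simp only [mul_assoc]
      _ = c ^ (m.choose 2) * ((c ^ m * g ^ m) * (g * (h ^ m * h))) := by rw [hcomm (g ^ m) m]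
      _ = (c ^ (m.choose 2) * c ^ m) * ((g ^ m * g) * (h ^ m * h)) := by simp only [mul_assoc]
      _ = _ := by rw [← pow_add, ← pow_succ, ← pow_succ, hch]

variable [Module (ZMod p) V]

lemma p_smul (v : V) : p • v = 0 := by
  have := (Nat.cast_smul_eq_nsmul (ZMod p) p v)
  rw [← this]; simp

lemma pi_powp (g : G) : E.π (g ^ p) = 0 := by rw [E.pi_pow, p_smul]

/-- the power map on `G` -/
def q (g : G) : ZMod p := E.ζ (g ^ p)

/-- the correction -/
def dl (p : ℕ) : ZMod p := if p = 2 then 1 else 0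

lemma q_mul [Fact p.Prime] (g h : G) : E.q (g * h) = E.q g + E.q h + dl p * E.b g h := by
  unfold q
  rw [E.mul_pow' g h p]
  have h1 : E.π ((h * g * h⁻¹ * g⁻¹) ^ (p.choose 2)) = 0 := by
    rw [E.pi_pow, E.pi_comm, smul_zero]
  have h2 : E.π (g ^ p * h ^ p) = 0 := by rw [E.hπ, E.pi_powp, E.pi_powp, add_zero]
  rw [E.hζ _ _ h1 h2, E.hζ _ _ (E.pi_powp g) (E.pi_powp h), E.zeta_pow _ (E.pi_comm _ _)]
  have h3 : E.ζ (h * g * h⁻¹ * g⁻¹) = - E.b g h := E.b_swap g h
  rw [h3]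
  have h4 : ((p.choose 2 : ℕ) : ZMod p) = - dl p := by
    unfold dl
    split_ifs with hp2
    · subst hp2
      simp only [Nat.choose_self, Nat.cast_one]
      exact zmod2_one_eq
    · rw [neg_zero, ZMod.natCast_eq_zero_iff]
      have hp := (Fact.out : p.Prime)
      exact hp.dvd_choose_self (by norm_num) (lt_of_le_of_ne hp.two_le (Ne.symm hp2))
  rw [h4]
  ring

lemma q_ker (z : G) (hz : E.π z = 0) : E.q z = 0 := by
  unfold q
  rw [E.zeta_pow z hz]; simp

lemma q_congr [Fact p.Prime] (g g' : G) (hg : E.π g = E.π g') : E.q g = E.q g' := by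
  have h1 : g = g' * (g'⁻¹ * g) := by group
  have h2 : E.π (g'⁻¹ * g) = 0 := by rw [E.hπ, E.pi_inv, hg]; simp
  rw [h1, E.q_mul, E.q_ker _ h2, E.b_swap, E.b_ker_left _ _ h2]; ring

/-- a section of `π` -/
noncomputable def s (v : V) : G := (E.hsurj v).choose

lemma pi_s (v : V) : E.π (E.s v) = v := (E.hsurj v).choose_spec

/-- the pair (alternating form, power map) on `V` -/
noncomputable def pair [Fact p.Prime] : Pair p V (dl p) where
  B := LinearMap.mk₂ (ZMod p) (fun u v => E.b (E.s u) (E.s v))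
    (fun u u' v => by
      rw [← E.b_mul_left]
      exact E.b_congr _ _ _ _ (by rw [E.hπ, E.pi_s, E.pi_s, E.pi_s]) rfl)
    (fun c u v => by
      exact ZMod.map_smul (AddMonoidHom.mk' (fun u => E.b (E.s u) (E.s v)) (fun u u' => by
        rw [← E.b_mul_left]
        exact E.b_congr _ _ _ _ (by rw [E.hπ, E.pi_s, E.pi_s, E.pi_s]) rfl)) c u)
    (fun u v v' => by
      rw [← E.b_mul_right]
      exact E.b_congr _ _ _ _ rfl (by rw [E.hπ, E.pi_s, E.pi_s, E.pi_s]))
    (fun c u v => by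
      exact ZMod.map_smul (AddMonoidHom.mk' (fun v => E.b (E.s u) (E.s v)) (fun v v' => by
        rw [← E.b_mul_right]
        exact E.b_congr _ _ _ _ rfl (by rw [E.hπ, E.pi_s, E.pi_s, E.pi_s]))) c v)
  alt := fun v => by
    rw [LinearMap.mk₂_apply]; exact E.b_self _
  Q := fun v => E.q (E.s v)
  add := fun u v => by
    rw [LinearMap.mk₂_apply, ← E.q_mul]
    exact E.q_congr _ _ (by rw [E.hπ, E.pi_s, E.pi_s, E.pi_s])
  hδ := by
    unfold dl
    by_cases h : p = 2
    · left; exact ⟨h, if_pos h⟩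
    · right; exact ⟨h, if_neg h⟩

lemma pair_B [Fact p.Prime] (g h : G) : E.pair.B (E.π g) (E.π h) = E.b g h := by
  have h1 : E.pair.B (E.π g) (E.π h) = E.b (E.s (E.π g)) (E.s (E.π h)) := rfl
  rw [h1]
  exact E.b_congr _ _ _ _ (E.pi_s _) (E.pi_s _)

lemma pair_Q [Fact p.Prime] (g : G) : E.pair.Q (E.π g) = E.q g := by
  have h1 : E.pair.Q (E.π g) = E.q (E.s (E.π g)) := rfl
  rw [h1]
  exact E.q_congr _ _ (E.pi_s _)

/-- the Frobenius-compatible automorphism of `G` -/
theorem exists_frob [Fact p.Prime] [Finite G] [Module.Finite (ZMod p) V]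
    (k : Type) [Field k] [IsAlgClosed k] [CharP k p] :
    ∃ (ι : V →+ k) (φ : G ≃* G), Function.Injective ι ∧
      (∀ g, ι (E.π (φ g)) = ι (E.π g) ^ p) ∧ ∀ z, E.π z = 0 → φ z = z := by
  obtain ⟨φ', ι, hB, hQ, hι, hF⟩ := exists_isometry (p := p) k V E.pair
  obtain ⟨φ, hφ, hφz⟩ := Pool.Agent.Helper94.AS.exists_lift p G V (fun v => p_smul v) E.π E.hπ
    E.hsurj E.hcent (fun z hz => by
      apply E.zeta_inj _ _ (by rw [E.pi_pow, hz, smul_zero]) E.pi_one
      rw [E.zeta_pow z hz, E.zeta_one]; simp) φ'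
    (fun g h g' h' hg hh => by
      apply E.zeta_inj _ _ (E.pi_comm _ _) (E.pi_comm _ _)
      have h1 := hB (E.π g) (E.π h)
      rw [← hg, ← hh, E.pair_B, E.pair_B] at h1
      exact h1)
    (fun g g' hg => by
      apply E.zeta_inj _ _ (E.pi_powp _) (E.pi_powp _)
      have h1 := hQ (E.π g)
      rw [← hg, E.pair_Q, E.pair_Q] at h1
      exact h1)
  exact ⟨ι, φ, hι, fun g => by rw [hφ, hF], hφz⟩

end Ext

/-- the extension data of a group `G` with a normal subgroup `N` of order `p` and elementary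
abelian quotient -/
theorem exists_ext (p : ℕ) [Fact p.Prime] (n : ℕ) (G : Type) [Group G] (N : Subgroup G) [N.Normal]
    (h1 : Nonempty (N ≃* Multiplicative (ZMod p)))
    (h2 : Nonempty (G ⧸ N ≃* Multiplicative (Fin n → ZMod p))) :
    ∃ E : Ext p G (Fin n → ZMod p), ∀ g, E.π g = 0 ↔ g ∈ N := by
  classical
  obtain ⟨e1⟩ := h1
  obtain ⟨e2⟩ := h2
  set π : G → (Fin n → ZMod p) := fun g => (e2 (QuotientGroup.mk g)).toAdd with hπ
  have hπm : ∀ g h, π (g * h) = π g + π h := by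
    intro g h
    simp only [hπ, QuotientGroup.mk_mul, map_mul, toAdd_mul]
  have hπs : Function.Surjective π := by
    intro v
    obtain ⟨g, hg⟩ := QuotientGroup.mk_surjective (e2.symm (Multiplicative.ofAdd v))
    refine ⟨g, ?_⟩
    simp only [hπ, hg, MulEquiv.apply_symm_apply, toAdd_ofAdd]
  have hπN : ∀ g, π g = 0 ↔ g ∈ N := by
    intro g
    rw [← QuotientGroup.eq_one_iff (N := N) g]
    constructor
    · intro h
      have h3 : e2 (QuotientGroup.mk g) = 1 := by
        apply Multiplicative.toAdd.injective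
        exact h
      exact (map_eq_one_iff e2 e2.injective).1 h3
    · intro h
      simp only [hπ, h, map_one, toAdd_one]
  set ζ : G → ZMod p := fun g => if h : g ∈ N then (e1 ⟨g, h⟩).toAdd else 0 with hζ
  have hζN : ∀ g (h : g ∈ N), ζ g = (e1 ⟨g, h⟩).toAdd := by
    intro g h
    simp only [hζ]
    rw [dif_pos h]
  have hζm : ∀ x y, x ∈ N → y ∈ N → ζ (x * y) = ζ x + ζ y := by
    intro x y hx hy
    rw [hζN _ hx, hζN _ hy, hζN _ (N.mul_mem hx hy), ← toAdd_mul, ← map_mul]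
    rfl
  have hζi : ∀ x, x ∈ N → ζ x = 0 → x = 1 := by
    intro x hx h
    rw [hζN _ hx] at h
    have h3 : e1 ⟨x, hx⟩ = 1 := Multiplicative.toAdd.injective h
    have h4 := (map_eq_one_iff e1 e1.injective).1 h3
    exact congrArg Subtype.val h4
  have hζs : ∀ a : ZMod p, ∃ z, z ∈ N ∧ ζ z = a := by
    intro a
    refine ⟨(e1.symm (Multiplicative.ofAdd a) : N), Subtype.property _, ?_⟩
    rw [hζN _ (Subtype.property _)]
    simp
  -- powers
  have hζ1 : ζ 1 = 0 := by
    have := hζm 1 1 N.one_mem N.one_mem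
    rw [mul_one] at this
    simpa using this
  have hζp : ∀ z ∈ N, ∀ m : ℕ, ζ (z ^ m) = m * ζ z := by
    intro z hz m
    induction m with
    | zero => simp [hζ1]
    | succ m ih =>
      rw [pow_succ, hζm _ _ (N.pow_mem hz m) hz, ih]
      push_cast; ring
  have hζinj : ∀ x y, x ∈ N → y ∈ N → ζ x = ζ y → x = y := by
    intro x y hx hy h
    have h3 := hζm (x * y⁻¹) y (N.mul_mem hx (N.inv_mem hy)) hy
    rw [inv_mul_cancel_right, h] at h3
    have h4 : ζ (x * y⁻¹) = 0 := by simpa using h3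
    exact mul_inv_eq_one.1 (hζi _ (N.mul_mem hx (N.inv_mem hy)) h4)
  -- centrality
  obtain ⟨z0, hz0, hz01⟩ := hζs 1
  have hz0g : ∀ z ∈ N, z = z0 ^ (ζ z).val := by
    intro z hz
    apply hζinj _ _ hz (N.pow_mem hz0 _)
    rw [hζp _ hz0, hz01, mul_one, ZMod.natCast_zmod_val]
  have hconj : ∀ g z, z ∈ N → g * z * g⁻¹ ∈ N := fun g z hz =>
    Subgroup.Normal.conj_mem inferInstance z hz g
  have hu : ∀ g z, z ∈ N → ζ (g * z * g⁻¹) = ζ (g * z0 * g⁻¹) * ζ z := by
    intro g z hz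
    have h3 : g * z * g⁻¹ = (g * z0 * g⁻¹) ^ (ζ z).val := by
      conv_lhs => rw [hz0g z hz]
      rw [conj_pow]
    rw [h3, hζp _ (hconj g z0 hz0), ZMod.natCast_zmod_val, mul_comm]
  have hum : ∀ g z, z ∈ N → ∀ m : ℕ, ζ (g ^ m * z * (g ^ m)⁻¹) = ζ (g * z0 * g⁻¹) ^ m * ζ z := by
    intro g z hz m
    induction m with
    | zero => simp
    | succ m ih =>
      have h3 : g ^ (m + 1) * z * (g ^ (m + 1))⁻¹ = g * (g ^ m * z * (g ^ m)⁻¹) * g⁻¹ := by
        rw [pow_succ']; group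
      rw [h3, hu _ _ (hconj _ _ hz), ih, pow_succ]; ring
  have hgp : ∀ g : G, g ^ (p * p) = 1 := by
    intro g
    rw [pow_mul]
    have hgN : g ^ p ∈ N := by
      rw [← hπN]
      have : ∀ m : ℕ, π (g ^ m) = m • π g := by
        intro m
        induction m with
        | zero =>
          have := (hπN 1).2 N.one_mem
          simpa using this
        | succ m ih => rw [pow_succ, hπm, ih, succ_nsmul]
      rw [this]
      funext i
      simp
    apply hζi _ (N.pow_mem hgN _)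
    rw [hζp _ hgN]; simp
  have hu1 : ∀ g : G, ζ (g * z0 * g⁻¹) = 1 := by
    intro g
    have h3 := hum g z0 hz0 (p * p)
    rw [hgp g, hz01, mul_one, pow_mul, ZMod.pow_card, ZMod.pow_card] at h3
    rw [← h3, one_mul, inv_one, mul_one, hz01]
  have hcent : ∀ z g, π z = 0 → z * g = g * z := by
    intro z g hz
    have hz' := (hπN z).1 hz
    have h3 : g * z * g⁻¹ = z := by
      apply hζinj _ _ (hconj g z hz') hz'
      rw [hu g z hz', hu1, one_mul]
    calc z * g = (g * z * g⁻¹) * g := by rw [h3]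
      _ = g * z := by group
  exact ⟨⟨π, ζ, hπm, hπs, hcent, fun x y hx hy => hζm x y ((hπN x).1 hx) ((hπN y).1 hy),
    fun x hx h => hζi x ((hπN x).1 hx) h, ⟨z0, (hπN z0).2 hz0, hz01⟩⟩, hπN⟩

end Pool.Agent.Helper50.AS
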